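import Pool.Agent.TH646.TT.Par
import Pool.Agent.W301.SS.Full

set_option autoImplicit false

/-! Numbers of primes to the right of the points `a + b`, `a ∈ A`, for almost all the members `b` of a
family of nearly minimal energy, for all the lengths at once. -/

namespace Pool.Agent.TH646.TT

open Finset Filter
open Pool.Agent.H373R2.T7
open Pool.Agent.W301.SS

/-- conversion from weights to counts -/
lemma cs_low (A : Finset ℕ) (N b y : ℕ) (hA : ∀ a ∈ A, a ≤ N) (hb : b ≤ N) (hy0 : 1 ≤ y) (hy : y ≤ 2 * N)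
    (L : ℝ) (hL : Real.log ((4 * N : ℕ) : ℝ) ≤ L) : (∑ a ∈ A, av y (a + b)) * y ≤ L * cs A b y := by
  have hyr : (0 : ℝ) < y := by exact_mod_cast hy0
  have h1 := conv_low (A := A) (B := {b}) hA (by simpa using hb) hy L hL
  have e1 : TT A {b} y = (∑ a ∈ A, av y (a + b)) * y := by
    unfold TT av
    rw [sum_mul]
    apply sum_congr rfl
    intro a _
    rw [sum_singleton]
    field_simp
  have e2 : PCs A {b} y = cs A b y := by
    rw [PCs_eq, sum_singleton]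
  rw [e1, e2] at h1
  exact h1

lemma cs_up (A : Finset ℕ) (b y X : ℕ) (hy0 : 1 ≤ y) (L : ℝ) (hL0 : 0 ≤ L) (hL : L ≤ Real.log (X : ℝ))
    (hX : 1 ≤ X) : L * cs A b y ≤ (∑ a ∈ A, av y (a + b)) * y + L * (X * y) := by
  have hyr : (0 : ℝ) < y := by exact_mod_cast hy0
  have e1 : (∑ a ∈ A, av y (a + b)) * y = ∑ a ∈ A, ∑ h ∈ Ioc 0 y, om (a + b + h) := by
    rw [sum_mul]
    apply sum_congr rfl
    intro a _
    unfold av
    field_simp
  have e2 : L * cs A b y = ∑ a ∈ A, L * (pn (a + b) y : ℝ) := by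
    unfold cs
    rw [mul_sum]
  rw [e1, e2, ← sum_filter_add_sum_filter_not A (fun a => a + b < X),
    ← sum_filter_add_sum_filter_not A (fun a => a + b < X) (fun a => ∑ h ∈ Ioc 0 y, om (a + b + h))]
  have h1 : ∑ a ∈ A.filter (fun a => a + b < X), L * (pn (a + b) y : ℝ) ≤ L * (X * y) := by
    have h2 : ∀ a ∈ A.filter (fun a => a + b < X), L * (pn (a + b) y : ℝ) ≤ L * y := by
      intro a _
      apply mul_le_mul_of_nonneg_left _ hL0
      exact_mod_cast pn_le _ _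
    refine (sum_le_sum h2).trans ?_
    rw [sum_const, nsmul_eq_mul]
    have h3 : ((A.filter (fun a => a + b < X)).card : ℝ) ≤ X := by
      have h4 : A.filter (fun a => a + b < X) ⊆ range X := by
        intro a ha
        rw [mem_filter] at ha
        rw [mem_range]
        omega
      have h5 := card_le_card h4
      rw [card_range] at h5
      exact_mod_cast h5
    calc _ ≤ (X : ℝ) * (L * y) := mul_le_mul_of_nonneg_right h3 (by positivity)
      _ = _ := by ring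
  have h2 : ∑ a ∈ A.filter (fun a => ¬ (a + b < X)), L * (pn (a + b) y : ℝ) ≤
      ∑ a ∈ A.filter (fun a => ¬ (a + b < X)), ∑ h ∈ Ioc 0 y, om (a + b + h) := by
    apply sum_le_sum
    intro a ha
    rw [mem_filter] at ha
    rw [pn_eq, mul_sum]
    apply sum_le_sum
    intro h hh
    unfold om
    split_ifs with hp
    · rw [mul_one]
      refine hL.trans (Real.log_le_log ?_ ?_)
      · exact_mod_cast (by omega : 0 < X)
      · exact_mod_cast (by omega : X ≤ a + b + h)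
    · rw [mul_zero]
  have h3 : 0 ≤ ∑ a ∈ A.filter (fun a => a + b < X), ∑ h ∈ Ioc 0 y, om (a + b + h) :=
    sum_nonneg fun _ _ => sum_nonneg fun _ _ => om_nonneg _
  linarith

lemma num1 (ε : ℝ) (hε : 0 < ε) : (1 - ε) * (1 + ε / 4) ≤ 1 - ε / 8 := by nlinarith [sq_nonneg ε]

lemma num2 (ε : ℝ) (hε : 0 < ε) (hε1 : ε ≤ 1) : 1 + ε / 4 ≤ (1 - ε / 8) * (1 + ε) := by
  have h := mul_nonneg hε.le (sub_nonneg.2 hε1)
  linarith

/-- the last step of the conversion -/
lemma conv_fin (ε ℓ c y csv T E : ℝ) (hε : 0 < ε) (hε1 : ε ≤ 1) (hcy : 0 < c * y)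
    (k2 : |T * y - c * y| ≤ (ε / 8) * (c * y)) (k3 : T * y ≤ (1 + ε / 4) * ℓ * csv)
    (k4 : (1 - ε / 8) * ℓ * csv ≤ T * y + E) (k5 : E ≤ (ε / 8) * (c * y)) :
    |csv * ℓ - c * y| ≤ ε * (c * y) := by
  have k2' := abs_le.1 k2
  rw [abs_le]
  constructor
  · have b1 : (1 - ε / 8) * (c * y) ≤ (1 + ε / 4) * (csv * ℓ) := by
      calc (1 - ε / 8) * (c * y) ≤ T * y := by linarith [k2'.1]
        _ ≤ (1 + ε / 4) * ℓ * csv := k3
        _ = _ := by ring
    have b3 : (1 + ε / 4) * ((1 - ε) * (c * y)) ≤ (1 + ε / 4) * (csv * ℓ) := by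
      refine le_trans ?_ b1
      calc (1 + ε / 4) * ((1 - ε) * (c * y)) = ((1 - ε) * (1 + ε / 4)) * (c * y) := by ring
        _ ≤ _ := mul_le_mul_of_nonneg_right (num1 ε hε) hcy.le
    have b4 := le_of_mul_le_mul_left b3 (by linarith)
    linarith
  · have b1 : (1 - ε / 8) * (csv * ℓ) ≤ (1 + ε / 4) * (c * y) := by
      calc (1 - ε / 8) * (csv * ℓ) = (1 - ε / 8) * ℓ * csv := by ring
        _ ≤ T * y + E := k4
        _ ≤ _ := by linarith [k2'.2]
    have b3 : (1 - ε / 8) * (csv * ℓ) ≤ (1 - ε / 8) * ((1 + ε) * (c * y)) := by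
      refine b1.trans ?_
      calc (1 + ε / 4) * (c * y) ≤ ((1 - ε / 8) * (1 + ε)) * (c * y) :=
            mul_le_mul_of_nonneg_right (num2 ε hε hε1) hcy.le
        _ = _ := by ring
    have b4 := le_of_mul_le_mul_left b3 (by linarith)
    linarith

/-- one length -/
theorem cnt_one (p B C U : ℕ) (ε : ℝ) (hε : 0 < ε) (hε1 : ε ≤ 1) : ∃ K0 : ℕ, ∀ᶠ N : ℕ in atTop,
    ∀ (x : ℕ) (s : ℕ → ℤ), (∀ m ∈ Icc 1 x, |s m| ≤ B * N) →
    (energy p x s : ℝ) * N ≤ Real.log N ^ C * (x : ℝ) ^ (2 * p) →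
    ∀ A : Finset ℕ, A ⊆ Icc 1 N → (N : ℝ) ≤ A.card * Real.log N ^ C →
    ∀ y : ℕ, Real.log N ^ K0 ≤ y → y ≤ 2 * N →
    ∀ S : Finset ℕ, S ⊆ Icc 1 x → (∀ m ∈ S, 0 < s m ∧ s m ≤ N ∧
      ε * (A.card * y) < |cs A (s m).toNat y * Real.log N - A.card * y|) →
    (S.card : ℝ) ≤ x / Real.log N ^ U := by
  obtain ⟨K0, n0, h0⟩ := theta_fam p B C (U + C + 1)
  refine ⟨K0, ?_⟩
  filter_upwards [ev_conv (ε / 4) (by linarith) (by linarith), ev_L (8 / ε + 1),
    ev_log (C + 1) (16 / ε) (ε / 8) (by positivity), eventually_ge_atTop (n0 + 16)] with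
    N h1 h2 h3 hN16 x s hs hE A hA hAN y hy1 hy2 S hSx hS
  obtain ⟨h5, -⟩ := h1
  have hNr : (16 : ℝ) ≤ N := by exact_mod_cast (by omega : 16 ≤ N)
  have hN0 : (0 : ℝ) < N := by linarith
  have hN1 : (1 : ℝ) ≤ N := by linarith
  obtain ⟨ℓ, hℓ⟩ : ∃ ℓ, ℓ = Real.log (N : ℝ) := ⟨_, rfl⟩
  have h6 := h0 N (by omega) x s hs hE A hA y hy1 hy2 S hSx
  rw [← hℓ] at h2 h3 h5 h6 hAN hy1 hS ⊢
  have hd8 : 0 < 8 / ε := by positivity
  have hℓ1 : 1 ≤ ℓ := by linarith
  have hℓ0 : 0 < ℓ := by linarith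
  have hyr : (1 : ℝ) ≤ y := (one_le_pow₀ hℓ1).trans hy1
  have hy : 1 ≤ y := by exact_mod_cast hyr
  have hy0 : (0 : ℝ) < y := by linarith
  obtain ⟨c, hc⟩ : ∃ c : ℝ, c = A.card := ⟨_, rfl⟩
  rw [← hc] at hAN hS h6
  have hc0 : 0 < c := by
    by_contra hcon
    have h7 : c = 0 := le_antisymm (not_lt.1 hcon) (by rw [hc]; exact Nat.cast_nonneg _)
    rw [h7, zero_mul] at hAN
    linarith
  have hpC : 0 < ℓ ^ C := by positivity
  refine (h6 fun m hm => ?_).trans ?_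
  · obtain ⟨g1, g2, g3⟩ := hS m hm
    refine ⟨g1, g2, ?_⟩
    by_contra hcon
    rw [not_lt] at hcon
    obtain ⟨b, hb⟩ : ∃ b, b = (s m).toNat := ⟨_, rfl⟩
    rw [← hb] at hcon g3
    have hbN : b ≤ N := by omega
    -- the error term
    have k1 : (N : ℝ) / ℓ ^ (U + C + 1) ≤ (ε / 8) * c := by
      have e1 : (N : ℝ) / ℓ ^ (U + C + 1) ≤ N / ℓ ^ (C + 1) := by
        apply div_le_div_of_nonneg_left hN0.le (by positivity)
        exact pow_le_pow_right₀ hℓ1 (by omega)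
      refine e1.trans ?_
      rw [div_le_iff₀ (by positivity), pow_succ]
      have e2 : 1 ≤ (ε / 8) * ℓ := by
        have : 8 / ε ≤ ℓ := by linarith
        rw [div_le_iff₀ hε] at this
        linarith
      calc (N : ℝ) ≤ c * ℓ ^ C := hAN
        _ = (c * ℓ ^ C) * 1 := (mul_one _).symm
        _ ≤ (c * ℓ ^ C) * ((ε / 8) * ℓ) := mul_le_mul_of_nonneg_left e2 (by positivity)
        _ = _ := by ring
    have k2 : |(∑ a ∈ A, av y (a + b)) * y - c * y| ≤ (ε / 8) * (c * y) := by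
      rw [← sub_mul, abs_mul, abs_of_pos hy0]
      calc |∑ a ∈ A, av y (a + b) - c| * y ≤ ((ε / 8) * c) * y :=
            mul_le_mul_of_nonneg_right (hcon.trans k1) hy0.le
        _ = _ := by ring
    have hcy : 0 < c * y := by positivity
    -- lower bound
    have k3 := cs_low A N b y (fun a ha => (mem_Icc.1 (hA ha)).2) hbN hy hy2 ((1 + ε / 4) * ℓ) h5
    -- upper bound
    obtain ⟨X, hX⟩ : ∃ X : ℕ, X = ⌈(N : ℝ) ^ (1 - ε / 8)⌉₊ := ⟨_, rfl⟩
    have hX1 : 1 ≤ (N : ℝ) ^ (1 - ε / 8) := Real.one_le_rpow hN1 (by linarith)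
    have hX2 : (N : ℝ) ^ (1 - ε / 8) ≤ X := by rw [hX]; exact Nat.le_ceil _
    have hX3 : (X : ℝ) ≤ 2 * (N : ℝ) ^ (1 - ε / 8) := by
      have := Nat.ceil_lt_add_one (show 0 ≤ (N : ℝ) ^ (1 - ε / 8) by linarith)
      rw [← hX] at this
      linarith
    have hX4 : 1 ≤ X := by
      have : (1 : ℝ) ≤ X := hX1.trans hX2
      exact_mod_cast this
    have hX5 : (1 - ε / 8) * ℓ ≤ Real.log (X : ℝ) := by
      rw [hℓ, ← Real.log_rpow hN0]
      exact Real.log_le_log (by positivity) hX2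
    have k4 := cs_up A b y X hy ((1 - ε / 8) * ℓ) (by nlinarith) hX5 hX4
    have k5 : (1 - ε / 8) * ℓ * (X * y) ≤ (ε / 8) * (c * y) := by
      have e1 : ℓ * X ≤ (ε / 8) * c := by
        have f1 : ℓ * X * ℓ ^ C ≤ (ε / 8) * N := by
          calc ℓ * X * ℓ ^ C ≤ ℓ * (2 * (N : ℝ) ^ (1 - ε / 8)) * ℓ ^ C := by gcongr
            _ = (ε / 8) * ((16 / ε * ℓ ^ (C + 1)) * (N : ℝ) ^ (1 - ε / 8)) := by
                rw [pow_succ]
                field_simp
                ring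
            _ ≤ (ε / 8) * ((N : ℝ) ^ (ε / 8) * (N : ℝ) ^ (1 - ε / 8)) := by gcongr
            _ = (ε / 8) * N := by
                rw [← Real.rpow_add hN0]
                norm_num
        have f2 : (ε / 8) * N ≤ ((ε / 8) * c) * ℓ ^ C := by
          calc (ε / 8) * N ≤ (ε / 8) * (c * ℓ ^ C) := mul_le_mul_of_nonneg_left hAN (by positivity)
            _ = _ := by ring
        exact le_of_mul_le_mul_right (f1.trans f2) hpC
      calc (1 - ε / 8) * ℓ * (X * y) = (1 - ε / 8) * (ℓ * X * y) := by ring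
        _ ≤ 1 * (ℓ * X * y) := mul_le_mul_of_nonneg_right (by linarith) (by positivity)
        _ = (ℓ * X) * y := by ring
        _ ≤ ((ε / 8) * c) * y := mul_le_mul_of_nonneg_right e1 hy0.le
        _ = _ := by ring
    have hgoal := conv_fin ε ℓ c y (cs A b y) _ _ hε hε1 hcy k2 k3 k4 k5
    linarith
  · apply div_le_div_of_nonneg_left (Nat.cast_nonneg _) (by positivity)
    exact pow_le_pow_right₀ hℓ1 (by omega)

end Pool.Agent.TH646.TT
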