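import Pool.Agent.TH646.TT.Cnt

set_option autoImplicit false

/-! All the lengths at once; many points with primes to their right. -/

namespace Pool.Agent.TH646.TT

open Finset Filter
open Pool.Agent.H373R2.T7
open Pool.Agent.W301.SS

/-- interpolation between two lengths of the grid -/
lemma interp (A : Finset ℕ) (b y g0 g1 : ℕ) (ℓ η : ℝ) (hℓ : 0 < ℓ) (hη : 0 < η) (hη1 : η ≤ 1 / 8)
    (g2 : g0 ≤ y) (g3 : y ≤ g1) (g4 : (g1 : ℝ) ≤ (1 + η) * y) (g5 : (1 - 2 * η) * y ≤ g0)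
    (n1 : |cs A b g0 * ℓ - A.card * g0| ≤ η * (A.card * g0))
    (n2 : |cs A b g1 * ℓ - A.card * g1| ≤ η * (A.card * g1)) :
    |cs A b y * ℓ - A.card * y| ≤ (8 * η) * (A.card * y) := by
  obtain ⟨c, hc⟩ : ∃ c : ℝ, c = A.card := ⟨_, rfl⟩
  rw [← hc] at n1 n2 ⊢
  have hc0 : 0 ≤ c := by rw [hc]; exact Nat.cast_nonneg _
  have m1 := (abs_le.1 n1).1
  have m2 := (abs_le.1 n2).2
  have c1 := mul_le_mul_of_nonneg_right (cs_mono A b g2) hℓ.le
  have c2 := mul_le_mul_of_nonneg_right (cs_mono A b g3) hℓ.le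
  have hcy : 0 ≤ c * y := by positivity
  have u1 : cs A b y * ℓ ≤ (1 + η) * (c * ((1 + η) * y)) := by
    calc cs A b y * ℓ ≤ cs A b g1 * ℓ := c2
      _ ≤ (1 + η) * (c * g1) := by linarith
      _ ≤ _ := by gcongr
  have u2 : (1 - η) * (c * ((1 - 2 * η) * y)) ≤ cs A b y * ℓ := by
    calc (1 - η) * (c * ((1 - 2 * η) * y)) ≤ (1 - η) * (c * g0) := by
          apply mul_le_mul_of_nonneg_left _ (by linarith)
          gcongr
      _ ≤ cs A b g0 * ℓ := by linarith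
      _ ≤ _ := c1
  rw [abs_le]
  constructor
  · have : (1 - η) * (c * ((1 - 2 * η) * y)) = (1 - 3 * η + 2 * η ^ 2) * (c * y) := by ring
    rw [this] at u2
    nlinarith [mul_nonneg (sq_nonneg η) hcy]
  · have : (1 + η) * (c * ((1 + η) * y)) = (1 + 2 * η + η ^ 2) * (c * y) := by ring
    rw [this] at u1
    have h9 : η ^ 2 ≤ η := by nlinarith
    nlinarith [mul_le_mul_of_nonneg_right h9 hcy]

theorem cnt_all (p B C U : ℕ) (ε : ℝ) (hε : 0 < ε) (hε1 : ε ≤ 1) : ∃ K : ℕ, ∀ᶠ N : ℕ in atTop,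
    ∀ (x : ℕ) (s : ℕ → ℤ), (∀ m ∈ Icc 1 x, |s m| ≤ B * N) →
    (energy p x s : ℝ) * N ≤ Real.log N ^ C * (x : ℝ) ^ (2 * p) →
    ∀ A : Finset ℕ, A ⊆ Icc 1 N → (N : ℝ) ≤ A.card * Real.log N ^ C →
    ∀ S : Finset ℕ, S ⊆ Icc 1 x → (∀ m ∈ S, 0 < s m ∧ s m ≤ N ∧
      ¬ ∀ y : ℕ, Real.log N ^ K ≤ y → y ≤ N →
        |cs A (s m).toNat y * Real.log N - A.card * y| ≤ ε * (A.card * y)) →
    (S.card : ℝ) ≤ x / Real.log N ^ U := by
  classical
  obtain ⟨η, hη⟩ : ∃ η, η = ε / 8 := ⟨_, rfl⟩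
  have hη0 : 0 < η := by rw [hη]; positivity
  have hη1 : η ≤ 1 / 8 := by rw [hη]; linarith
  obtain ⟨K, hK⟩ := cnt_one p B C (U + 2) η hη0 (by linarith)
  have hlr : 0 < Real.log (1 + η) := Real.log_pos (by linarith)
  refine ⟨K + 1, ?_⟩
  filter_upwards [hK, ev_L (1 / η + 2 / Real.log (1 + η) + 8), eventually_ge_atTop 16] with
    N hone hL hN16 x s hs hE A hA hAN S hSx hS
  have hNr : (16 : ℝ) ≤ N := by exact_mod_cast hN16
  have hN0 : (0 : ℝ) < N := by linarith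
  have hone' := hone x s hs hE A hA hAN
  obtain ⟨ℓ, hℓ⟩ : ∃ ℓ, ℓ = Real.log (N : ℝ) := ⟨_, rfl⟩
  rw [← hℓ] at hL hone' hS ⊢
  have hd1 : 0 < 1 / η := by positivity
  have hd2 : 0 < 2 / Real.log (1 + η) := by positivity
  have hℓ8 : 8 ≤ ℓ := by linarith
  have hℓ0 : 0 < ℓ := by linarith
  obtain ⟨J, hJ⟩ : ∃ J : ℕ, J = ⌊ℓ / Real.log (1 + η)⌋₊ + 2 := ⟨_, rfl⟩
  obtain ⟨BB, hBB⟩ : ∃ BB : ℕ → Finset ℕ, BB = fun j => S.filter (fun m => ℓ ^ K ≤ (gr η j : ℝ) ∧ gr η j ≤ 2 * N ∧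
    η * (A.card * gr η j) < |cs A (s m).toNat (gr η j) * ℓ - A.card * gr η j|) := ⟨_, rfl⟩
  have hBBc : ∀ j, ((BB j).card : ℝ) ≤ x / ℓ ^ (U + 2) := by
    intro j
    by_cases h : ℓ ^ K ≤ (gr η j : ℝ) ∧ gr η j ≤ 2 * N
    · apply hone' (gr η j) h.1 h.2
      · rw [hBB]
        exact (filter_subset _ _).trans hSx
      · intro m hm
        rw [hBB] at hm
        simp only [mem_filter] at hm
        obtain ⟨g1, g2, _⟩ := hS m hm.1
        exact ⟨g1, g2, hm.2.2.2⟩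
    · have : BB j = ∅ := by
        rw [hBB]
        simp only
        rw [filter_eq_empty_iff]
        intro m _ hm
        exact h ⟨hm.1, hm.2.1⟩
      rw [this, card_empty, Nat.cast_zero]
      positivity
  have hsub : S ⊆ (range J).biUnion BB := by
    intro m hm
    obtain ⟨hs1, hs2, hy⟩ := hS m hm
    push Not at hy
    obtain ⟨y, hy1, hy2, hy3⟩ := hy
    have hyℓ : ℓ ≤ y := by
      refine le_trans ?_ hy1
      calc ℓ = ℓ ^ 1 := (pow_one _).symm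
        _ ≤ ℓ ^ (K + 1) := pow_le_pow_right₀ (by linarith) (by omega)
    have hy0 : (1 : ℝ) ≤ y := by linarith
    obtain ⟨j, g1, g2, g3, g4, g5⟩ := gr_mem hη0 (by linarith) y (by exact_mod_cast hy0)
      (by linarith)
    have hyK : ℓ ^ K ≤ (gr η j : ℝ) := by
      refine le_trans ?_ g5
      have h1 : ℓ ^ K * ℓ ≤ y := by rw [← pow_succ]; exact hy1
      have h2 : 0 ≤ ℓ ^ K := by positivity
      have h3 : ℓ ^ K * 2 ≤ y := by nlinarith
      have h4 : (1 / 2) * (y : ℝ) ≤ (1 - 2 * η) * y := by nlinarith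
      linarith
    have hjJ : j + 1 < J := by
      have h1 : (j : ℝ) ≤ ℓ / Real.log (1 + η) := by
        rw [le_div_iff₀ hlr, ← Real.log_pow, hℓ]
        apply Real.log_le_log (by positivity)
        refine g1.trans ?_
        exact_mod_cast hy2
      have h2 : j ≤ ⌊ℓ / Real.log (1 + η)⌋₊ := Nat.le_floor h1
      omega
    have hg2N : gr η (j + 1) ≤ 2 * N := by
      have h1 : (gr η (j + 1) : ℝ) ≤ 2 * N := by
        refine g4.trans ?_
        have : (y : ℝ) ≤ N := by exact_mod_cast hy2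
        nlinarith
      exact_mod_cast h1
    rw [mem_biUnion]
    by_contra hcon
    push Not at hcon
    have n1 := hcon j (mem_range.2 (by omega))
    have n2 := hcon (j + 1) (mem_range.2 hjJ)
    have hgg : (gr η j : ℝ) ≤ gr η (j + 1) := by exact_mod_cast g2.trans g3
    rw [hBB] at n1 n2
    simp only [mem_filter, not_and, not_lt] at n1 n2
    have m1 := n1 hm hyK (by omega)
    have m2 := n2 hm (hyK.trans hgg) hg2N
    have m3 := interp A (s m).toNat y (gr η j) (gr η (j + 1)) ℓ η hℓ0 hη0 hη1 g2 g3 g4 g5 m1 m2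
    rw [show 8 * η = ε by rw [hη]; ring] at m3
    linarith
  have h1 : (S.card : ℝ) ≤ ∑ j ∈ range J, ((BB j).card : ℝ) := by
    exact_mod_cast (card_le_card hsub).trans card_biUnion_le
  have h3 : (J : ℝ) * 2 ≤ ℓ ^ 2 := by
    have h4 : (J : ℝ) ≤ ℓ / Real.log (1 + η) + 2 := by
      rw [hJ]; push_cast
      have := Nat.floor_le (show 0 ≤ ℓ / Real.log (1 + η) by positivity)
      linarith
    have h5 : 2 / Real.log (1 + η) ≤ ℓ - 8 := by linarith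
    have h6 : ℓ / Real.log (1 + η) * 2 ≤ ℓ * (ℓ - 8) := by
      calc ℓ / Real.log (1 + η) * 2 = ℓ * (2 / Real.log (1 + η)) := by ring
        _ ≤ _ := mul_le_mul_of_nonneg_left h5 hℓ0.le
    nlinarith
  calc (S.card : ℝ) ≤ ∑ j ∈ range J, ((BB j).card : ℝ) := h1
    _ ≤ ∑ _j ∈ range J, (x : ℝ) / ℓ ^ (U + 2) := sum_le_sum fun j _ => hBBc j
    _ = J * (x / ℓ ^ (U + 2)) := by rw [sum_const, nsmul_eq_mul, card_range]
    _ ≤ ℓ ^ 2 * (x / ℓ ^ (U + 2)) := by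
        apply mul_le_mul_of_nonneg_right _ (by positivity)
        have : (0 : ℝ) ≤ J := Nat.cast_nonneg _
        linarith
    _ = x / ℓ ^ U := by
        rw [pow_add]
        field_simp

/-- many elements of the translate have primes to their right -/
lemma good_many (C : ℕ) (ε : ℝ) (hε : 0 < ε) (hε1 : ε ≤ 1 / 4) : ∀ᶠ N : ℕ in atTop,
    ∀ A : Finset ℕ, A ⊆ Icc 1 N → (N : ℝ) ≤ A.card * Real.log N ^ C →
    ∀ b ∈ Icc 1 N, ∀ y : ℕ, Real.log N ^ (C + 20) ≤ y →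
      |cs A b y * Real.log N - A.card * y| ≤ (ε / 4) * (A.card * y) →
      (1 / 4 - ε) * A.card ≤ (GG A N b y ε).card := by
  obtain ⟨δ, hδ⟩ : ∃ δ, δ = ε / 4 := ⟨_, rfl⟩
  have hδ0 : 0 < δ := by rw [hδ]; positivity
  have hδ1 : δ ≤ 1 / 4 := by rw [hδ]; linarith
  rw [← hδ]
  filter_upwards [subsets δ hδ0 hδ1, ev_L (1024 / δ + 4), ev_log (C + 2) (24 / δ ^ 2) δ hδ0,
    ev_log (C + 1) (2 / δ) (3 / 4) (by norm_num), eventually_ge_atTop 16] with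
    N h2 h3 h4 h5 hN16 A hA hAN b hb y hyC g1
  have hNr : (16 : ℝ) ≤ N := by exact_mod_cast hN16
  have hN0 : (0 : ℝ) < N := by linarith
  set ℓ := Real.log N with hℓ
  have hd1 : 0 < 1024 / δ := by positivity
  have hℓ4 : 4 ≤ ℓ := by linarith
  have hℓ0 : 0 < ℓ := by linarith
  have hyr : (1 : ℝ) ≤ y := (one_le_pow₀ (by linarith)).trans hyC
  have hyn : 1 ≤ y := by exact_mod_cast hyr
  have hy0 : (0 : ℝ) < y := by linarith
  have hAc : (N : ℝ) / ℓ ^ C ≤ A.card := by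
    rw [div_le_iff₀ (by positivity)]; exact hAN
  have c1 : (3 * (N : ℝ) ^ (1 - δ) + (2 * N / y) * (2 * ℓ) ^ 16) * (4 * ℓ ^ 2 / δ ^ 2) ≤ A.card := by
    refine le_trans ?_ hAc
    have a1 : 3 * (N : ℝ) ^ (1 - δ) * (4 * ℓ ^ 2 / δ ^ 2) ≤ (1 / 2) * (N / ℓ ^ C) := by
      have e1 : 3 * (N : ℝ) ^ (1 - δ) * (4 * ℓ ^ 2 / δ ^ 2) =
          (1 / 2) * ((24 / δ ^ 2 * ℓ ^ (C + 2)) * (N : ℝ) ^ (1 - δ) / ℓ ^ C) := by
        rw [pow_add]; field_simp; ring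
      rw [e1]
      apply mul_le_mul_of_nonneg_left _ (by norm_num)
      apply div_le_div_of_nonneg_right _ (by positivity)
      calc (24 / δ ^ 2 * ℓ ^ (C + 2)) * (N : ℝ) ^ (1 - δ) ≤ (N : ℝ) ^ δ * (N : ℝ) ^ (1 - δ) := by gcongr
        _ = N := by rw [← Real.rpow_add hN0]; norm_num
    have a2 : (2 * N / y) * (2 * ℓ) ^ 16 * (4 * ℓ ^ 2 / δ ^ 2) ≤ (1 / 2) * (N / ℓ ^ C) := by
      have e1 : (2 * N / y) * (2 * ℓ) ^ 16 * (4 * ℓ ^ 2 / δ ^ 2) =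
          (1 / 2) * (N / ℓ ^ C) * ((1048576 / δ ^ 2) * ℓ ^ (C + 18) / y) := by
        rw [pow_add]; field_simp; ring
      rw [e1]
      have e2 : (1048576 / δ ^ 2) * ℓ ^ (C + 18) / y ≤ 1 := by
        rw [div_le_one hy0]
        refine le_trans ?_ hyC
        have e3 : ℓ ^ (C + 20) = ℓ ^ 2 * ℓ ^ (C + 18) := by rw [← pow_add]; congr 1; omega
        rw [e3]
        apply mul_le_mul_of_nonneg_right _ (by positivity)
        have e4 : 1024 / δ ≤ ℓ := by linarith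
        calc 1048576 / δ ^ 2 = (1024 / δ) ^ 2 := by field_simp; norm_num
          _ ≤ ℓ ^ 2 := pow_le_pow_left₀ hd1.le e4 2
      calc _ ≤ (1 / 2) * (N / ℓ ^ C) * 1 := mul_le_mul_of_nonneg_left e2 (by positivity)
        _ = _ := by ring
    calc _ = 3 * (N : ℝ) ^ (1 - δ) * (4 * ℓ ^ 2 / δ ^ 2) +
          (2 * N / y) * (2 * ℓ) ^ 16 * (4 * ℓ ^ 2 / δ ^ 2) := by ring
      _ ≤ _ := by linarith
  have c2 : (N : ℝ) ^ (1 / 4 : ℝ) * (2 * ℓ / δ) ≤ A.card := by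
    refine le_trans ?_ hAc
    rw [le_div_iff₀ (by positivity)]
    calc (N : ℝ) ^ (1 / 4 : ℝ) * (2 * ℓ / δ) * ℓ ^ C =
          (N : ℝ) ^ (1 / 4 : ℝ) * (2 / δ * ℓ ^ (C + 1)) := by
            have e1 : ℓ ^ (C + 1) = ℓ ^ C * ℓ := pow_succ ℓ C
            rw [e1]; ring
      _ ≤ (N : ℝ) ^ (1 / 4 : ℝ) * (N : ℝ) ^ (3 / 4 : ℝ) := by gcongr
      _ = N := by rw [← Real.rpow_add hN0]; norm_num
  have g2 := h2 A (fun a ha => (mem_Icc.1 (hA ha)).2) b hb y hyn c1 c2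
  have hlow : (1 - δ) * ((A.card : ℝ) * y) ≤ cs A b y * ℓ := by
    have := (abs_le.1 g1).1
    linarith
  have g3 := many δ hδ0 hδ1 (N := N) ε (1 - δ) hε.le hyn g2 hlow
  refine le_trans ?_ g3
  apply mul_le_mul_of_nonneg_right _ (Nat.cast_nonneg _)
  rw [hδ]
  nlinarith

/-- the two conclusions for almost all the members of the family -/
theorem cnt_full (p B C U : ℕ) (ε : ℝ) (hε : 0 < ε) (hε1 : ε ≤ 1 / 4) : ∃ K : ℕ, ∀ᶠ N : ℕ in atTop,
    ∀ (x : ℕ) (s : ℕ → ℤ), (∀ m ∈ Icc 1 x, |s m| ≤ B * N) →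
    (energy p x s : ℝ) * N ≤ Real.log N ^ C * (x : ℝ) ^ (2 * p) →
    ∀ A : Finset ℕ, A ⊆ Icc 1 N → (N : ℝ) ≤ A.card * Real.log N ^ C →
    ∀ S : Finset ℕ, S ⊆ Icc 1 x → (∀ m ∈ S, 0 < s m ∧ s m ≤ N ∧
      ¬ ∀ y : ℕ, Real.log N ^ K ≤ y → y ≤ N →
        |cs A (s m).toNat y * Real.log N - A.card * y| ≤ ε * (A.card * y) ∧
        (1 / 4 - ε) * A.card ≤ (GG A N (s m).toNat y ε).card) →
    (S.card : ℝ) ≤ x / Real.log N ^ U := by
  obtain ⟨K, hK⟩ := cnt_all p B C U (ε / 4) (by positivity) (by linarith)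
  refine ⟨max K (C + 20), ?_⟩
  filter_upwards [hK, good_many C ε hε hε1, ev_L 1] with N h1 h2 h3 x s hs hE A hA hAN S hSx hS
  refine h1 x s hs hE A hA hAN S hSx ?_
  intro m hm
  obtain ⟨g1, g2, g3⟩ := hS m hm
  refine ⟨g1, g2, fun g4 => g3 fun y hy1 hy2 => ?_⟩
  have hyK : Real.log N ^ K ≤ y := (pow_le_pow_right₀ h3 (le_max_left _ _)).trans hy1
  have hyC : Real.log N ^ (C + 20) ≤ y := (pow_le_pow_right₀ h3 (le_max_right _ _)).trans hy1
  have g5 := g4 y hyK hy2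
  refine ⟨g5.trans ?_, h2 A hA hAN _ (mem_Icc.2 ⟨by omega, by omega⟩) y hyC g5⟩
  apply mul_le_mul_of_nonneg_right _ (by positivity)
  linarith

end Pool.Agent.TH646.TT
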