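import Pool.Agent.TH646.TT.Sup
import Pool.Agent.TH646.LV.Fam

set_option autoImplicit false

/-! The choice of the parameters; the averages of `log p` over the intervals to the right of the points
`a + b`, `a ∈ A`, for one length and almost all the members `b` of a family of nearly minimal energy. -/

namespace Pool.Agent.TH646.TT

open Finset Filter
open Pool.Agent.H373R2.T7
open Pool.Agent.H807R2.Dav
open Pool.Agent.W301.SS

theorem sup_par (B U : ℕ) : ∃ W K0 N0 : ℕ, ∀ N : ℕ, N0 ≤ N →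
    1 ≤ ⌊(N : ℝ) / Real.log N ^ W⌋₊ ∧ ∀ y : ℕ, Real.log N ^ K0 ≤ y → y ≤ ⌊(N : ℝ) / Real.log N ^ W⌋₊ →
    ∀ α : ℝ, ‖∑ n ∈ Icc 1 (2 * ((B + 1) * N)),
      ((av y n - av ⌊(N : ℝ) / Real.log N ^ W⌋₊ n : ℝ) : ℂ) * ee ((n : ℝ) * α)‖ ≤
      ((2 * ((B + 1) * N) : ℕ) : ℝ) / Real.log N ^ U := by
  obtain ⟨C, hC⟩ := vinoP
  have hC' : VC C := hC
  have hC0 : 0 < C := hC.1
  obtain ⟨W2, hW2⟩ : ∃ W2, W2 = 2 * (U + 8) := ⟨_, rfl⟩
  obtain ⟨W, hW⟩ : ∃ W, W = W2 + (U + 1) := ⟨_, rfl⟩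
  obtain ⟨n1, h1⟩ := eventually_atTop.1 (ev_L ((6 * C + 26) * 3 ^ 8 + (6 * C + 26) + 6 +
    (Real.log ((4 * (B + 1) : ℕ) : ℝ) + 4)))
  obtain ⟨n2, h2⟩ := eventually_atTop.1 (ev_log (U + 8) 1 (1 / 5) (by norm_num))
  obtain ⟨n3, h3⟩ := eventually_atTop.1 (ev_log W 2 1 one_pos)
  refine ⟨W, W2, n1 + n2 + n3 + 3, fun N hN => ?_⟩
  have a1 := h1 N (by omega)
  have a2 := h2 N (by omega)
  have a3 := h3 N (by omega)
  have hN3 : 3 ≤ N := by omega
  have hNr : (3 : ℝ) ≤ N := by exact_mod_cast hN3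
  have hN0 : (0 : ℝ) < N := by linarith
  obtain ⟨L, hL⟩ : ∃ L, L = Real.log (N : ℝ) := ⟨_, rfl⟩
  rw [← hL] at a1 a2 a3 ⊢
  rw [one_mul] at a2
  rw [Real.rpow_one] at a3
  obtain ⟨c, hc⟩ : ∃ c, c = 6 * C + 26 := ⟨_, rfl⟩
  rw [← hc] at a1
  have hc0 : 0 < c := by rw [hc]; positivity
  have hlB : 0 ≤ Real.log ((4 * (B + 1) : ℕ) : ℝ) := Real.log_natCast_nonneg _
  have hL4 : 4 ≤ L := by nlinarith
  have hL1 : 1 ≤ L := by linarith
  have hL0 : 0 < L := by linarith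
  have hLW : 0 < L ^ W := by positivity
  obtain ⟨K, hK⟩ : ∃ K, K = ⌊(N : ℝ) / L ^ W⌋₊ := ⟨_, rfl⟩
  rw [← hK]
  have hKle : (K : ℝ) ≤ N / L ^ W := by rw [hK]; exact Nat.floor_le (by positivity)
  have hK1 : 1 ≤ K := by
    rw [hK]
    apply Nat.le_floor
    rw [Nat.cast_one, le_div_iff₀ hLW]
    nlinarith
  obtain ⟨X, hX⟩ : ∃ X, X = 2 * ((B + 1) * N) := ⟨_, rfl⟩
  have hNX : N ≤ X := by
    rw [hX]
    have : N ≤ (B + 1) * N := Nat.le_mul_of_pos_left _ (by omega)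
    omega
  have hNXr : (N : ℝ) ≤ X := by exact_mod_cast hNX
  have hX0 : (0 : ℝ) < X := by linarith
  have hKN : (K : ℝ) ≤ N := hKle.trans (div_le_self hN0.le (one_le_pow₀ hL1))
  have hKX : K ≤ X := by exact_mod_cast hKN.trans hNXr
  refine ⟨hK1, fun y hy1 hy2 α => ?_⟩
  rw [← hX]
  have hyr : (1 : ℝ) ≤ y := (one_le_pow₀ hL1).trans hy1
  have hy : 1 ≤ y := by exact_mod_cast hyr
  have hy0 : (0 : ℝ) < y := by linarith
  have hQ : (0 : ℝ) < N / L ^ W2 := by positivity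
  have key := dif_sum hC' X y K hy hy2 hKX (N / L ^ W2) hQ α
  rw [← hc] at key
  refine key.trans ?_
  -- logarithms
  have hlX2 : Real.log ((2 * X : ℕ) : ℝ) = Real.log ((4 * (B + 1) : ℕ) : ℝ) + L := by
    have e : ((2 * X : ℕ) : ℝ) = ((4 * (B + 1) : ℕ) : ℝ) * N := by rw [hX]; push_cast; ring
    rw [e, Real.log_mul (by positivity) hN0.ne', hL]
  have hcc : 0 ≤ c * 3 ^ 8 + c := by positivity
  have hlX2' : Real.log ((2 * X : ℕ) : ℝ) + 2 ≤ 3 * L := by rw [hlX2]; linarith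
  have hlX : 1 + Real.log (X : ℝ) ≤ 3 * L := by
    have : Real.log (X : ℝ) ≤ Real.log ((2 * X : ℕ) : ℝ) := Real.log_le_log hX0 (by push_cast; linarith)
    linarith
  have hlX0 : 0 ≤ 1 + Real.log (X : ℝ) := by have := Real.log_natCast_nonneg X; linarith
  have hp8 : 0 < L ^ (U + 8) := by positivity
  -- the three terms
  have t1 : X / √(y : ℝ) ≤ X / L ^ (U + 8) := by
    apply div_le_div_of_nonneg_left hX0.le hp8
    apply Real.le_sqrt_of_sq_le
    refine le_trans (le_of_eq ?_) hy1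
    rw [← pow_mul, hW2]
    congr 1
    ring
  have t2 : (X : ℝ) ^ (4 / 5 : ℝ) ≤ X / L ^ (U + 8) := by
    rw [le_div_iff₀ hp8]
    calc (X : ℝ) ^ (4 / 5 : ℝ) * L ^ (U + 8) ≤ (X : ℝ) ^ (4 / 5 : ℝ) * (X : ℝ) ^ (1 / 5 : ℝ) := by
          apply mul_le_mul_of_nonneg_left _ (by positivity)
          exact a2.trans (Real.rpow_le_rpow hN0.le hNXr (by norm_num))
      _ = X := by rw [← Real.rpow_add hX0]; norm_num
  have t3 : √(X * (N / L ^ W2)) ≤ X / L ^ (U + 8) := by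
    apply Real.sqrt_le_iff.2
    refine ⟨by positivity, ?_⟩
    rw [div_pow, ← pow_mul, show (U + 8) * 2 = W2 by rw [hW2]; ring, sq, mul_div_assoc']
    apply div_le_div_of_nonneg_right _ (by positivity)
    exact mul_le_mul_of_nonneg_left hNXr hX0.le
  have t4 : (X : ℝ) * K / (N / L ^ W2) ≤ X / L ^ (U + 1) := by
    rw [div_div_eq_mul_div, div_le_div_iff₀ hN0 (by positivity)]
    have e : (N : ℝ) / L ^ W * (L ^ W2 * L ^ (U + 1)) = N := by
      rw [hW, pow_add]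
      field_simp
    calc (X : ℝ) * K * L ^ W2 * L ^ (U + 1) = X * (K * (L ^ W2 * L ^ (U + 1))) := by ring
      _ ≤ X * (N / L ^ W * (L ^ W2 * L ^ (U + 1))) := by gcongr
      _ = X * N := by rw [e]
  have t5 : (K : ℝ) * (Real.log ((2 * X : ℕ) : ℝ) + 2) ≤ 3 * (X / L ^ (U + 1)) := by
    have e1 : (K : ℝ) * (Real.log ((2 * X : ℕ) : ℝ) + 2) ≤ (N / L ^ W) * (3 * L) :=
      mul_le_mul hKle hlX2' (by have := Real.log_natCast_nonneg (2 * X); linarith) (by positivity)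
    refine e1.trans ?_
    have e2 : (N / L ^ W) * (3 * L) = 3 * (N / L ^ (W - 1)) := by
      have e3 : L ^ W = L ^ (W - 1) * L := by rw [← pow_succ]; congr 1; omega
      rw [e3]
      field_simp
    rw [e2]
    apply mul_le_mul_of_nonneg_left _ (by norm_num)
    apply div_le_div₀ hX0.le hNXr (by positivity)
    exact pow_le_pow_right₀ hL1 (by omega)
  have t6 : (1 + Real.log (X : ℝ)) ^ 7 * (X / √(y : ℝ) + (X : ℝ) ^ (4 / 5 : ℝ) + √(X * (N / L ^ W2))) ≤
      3 ^ 8 * (X / L ^ (U + 1)) := by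
    calc (1 + Real.log (X : ℝ)) ^ 7 * (X / √(y : ℝ) + (X : ℝ) ^ (4 / 5 : ℝ) + √(X * (N / L ^ W2)))
        ≤ (3 * L) ^ 7 * (X / L ^ (U + 8) + X / L ^ (U + 8) + X / L ^ (U + 8)) := by
          apply mul_le_mul (pow_le_pow_left₀ hlX0 hlX 7) (by linarith) (by positivity) (by positivity)
      _ = _ := by
          rw [show U + 8 = (U + 1) + 7 by ring, pow_add L (U + 1) 7]
          field_simp
          ring
  have hfin : (c * 3 ^ 8 + c + 6) * (X / L ^ (U + 1)) ≤ X / L ^ U := by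
    have e : X / L ^ U = L * (X / L ^ (U + 1)) := by
      rw [pow_succ]
      field_simp
    rw [e]
    apply mul_le_mul_of_nonneg_right _ (by positivity)
    linarith
  unfold ERR
  calc c * ((1 + Real.log (X : ℝ)) ^ 7 * (X / √(y : ℝ) + (X : ℝ) ^ (4 / 5 : ℝ) + √(X * (N / L ^ W2))) +
        X * K / (N / L ^ W2)) + 2 * (K * (Real.log ((2 * X : ℕ) : ℝ) + 2))
      ≤ c * (3 ^ 8 * (X / L ^ (U + 1)) + X / L ^ (U + 1)) + 2 * (3 * (X / L ^ (U + 1))) := by gcongr
    _ = (c * 3 ^ 8 + c + 6) * (X / L ^ (U + 1)) := by ring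
    _ ≤ _ := hfin

lemma av_pnt (N y n : ℕ) (hy : 1 ≤ y) (hn : n + y ≤ 4 * N) (E : ℝ)
    (hE : ∀ m : ℕ, m ≤ 4 * N → |Chebyshev.theta (m : ℝ) - m| ≤ E) : |av y n - 1| ≤ 2 * E / y := by
  have hy0 : (0 : ℝ) < y := by exact_mod_cast hy
  have e : av y n - 1 = (Chebyshev.theta ((n + y : ℕ) : ℝ) - Chebyshev.theta (n : ℝ) - y) / y := by
    unfold av
    rw [sum_om_Ioc]
    field_simp
  rw [e, abs_div, abs_of_pos hy0]
  apply div_le_div_of_nonneg_right _ hy0.le
  have h3 := hE (n + y) hn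
  have h4 := hE n (by omega)
  rw [abs_le] at h3 h4 ⊢
  push_cast at h3 h4 ⊢
  constructor <;> linarith

lemma av_nonneg (y n : ℕ) : 0 ≤ av y n :=
  div_nonneg (sum_nonneg fun _ _ => om_nonneg _) (Nat.cast_nonneg _)

set_option maxHeartbeats 4000000 in
theorem theta_fam (p B C U : ℕ) : ∃ K0 N0 : ℕ, ∀ N : ℕ, N0 ≤ N → ∀ (x : ℕ) (s : ℕ → ℤ),
    (∀ m ∈ Icc 1 x, |s m| ≤ B * N) →
    (energy p x s : ℝ) * N ≤ Real.log N ^ C * (x : ℝ) ^ (2 * p) →
    ∀ A : Finset ℕ, A ⊆ Icc 1 N → ∀ y : ℕ, Real.log N ^ K0 ≤ y → y ≤ 2 * N →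
    ∀ S : Finset ℕ, S ⊆ Icc 1 x → (∀ m ∈ S, 0 < s m ∧ s m ≤ N ∧
      N / Real.log N ^ U < |∑ a ∈ A, av y (a + (s m).toNat) - A.card|) →
    (S.card : ℝ) ≤ x / Real.log N ^ U := by
  obtain ⟨U', n1, h1⟩ := LV.fam_sup p (B + 1) C 0 (U + 1)
  obtain ⟨W, K0, n2, h2⟩ := sup_par (B + 1) U'
  obtain ⟨n3, h3⟩ := eventually_atTop.1 (pnt_unif (W + (U + 2)))
  obtain ⟨n4, h4⟩ := eventually_atTop.1 (ev_L (Real.log ((4 * (B + 2) : ℕ) : ℝ) + 4))
  obtain ⟨n5, h5⟩ := eventually_atTop.1 (ev_log W 2 1 one_pos)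
  refine ⟨K0, n1 + n2 + n3 + n4 + n5 + 3, fun N hN x s hs hE A hA y hy1 hy2 S hSx hS => ?_⟩
  classical
  have b1 := h1 N (by omega) x s (fun m hm => (hs m hm).trans (by push_cast; nlinarith)) hE
  obtain ⟨hK1, b2⟩ := h2 N (by omega)
  have b3 := h3 N (by omega)
  have b4 := h4 N (by omega)
  have b5 := h5 N (by omega)
  have hN3 : 3 ≤ N := by omega
  have hNr : (3 : ℝ) ≤ N := by exact_mod_cast hN3
  have hN0 : (0 : ℝ) < N := by linarith
  obtain ⟨L, hL⟩ : ∃ L, L = Real.log (N : ℝ) := ⟨_, rfl⟩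
  rw [← hL] at b1 b2 b3 b4 b5 hK1 hy1 hS ⊢
  rw [Real.rpow_one] at b5
  have hlB : 0 ≤ Real.log ((4 * (B + 2) : ℕ) : ℝ) := Real.log_natCast_nonneg _
  have hL4 : 4 ≤ L := by linarith
  have hL1 : 1 ≤ L := by linarith
  have hL0 : 0 < L := by linarith
  have hLW : 0 < L ^ W := by positivity
  obtain ⟨K, hK⟩ : ∃ K, K = ⌊(N : ℝ) / L ^ W⌋₊ := ⟨_, rfl⟩
  rw [← hK] at hK1 b2
  have hKle : (K : ℝ) ≤ N / L ^ W := by rw [hK]; exact Nat.floor_le (by positivity)
  have hK0 : (0 : ℝ) < K := by exact_mod_cast hK1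
  have hKge : (N : ℝ) / (2 * L ^ W) ≤ K := by
    have e1 := Nat.lt_floor_add_one ((N : ℝ) / L ^ W)
    rw [← hK] at e1
    have e2 : (2 : ℝ) ≤ N / L ^ W := by
      rw [le_div_iff₀ hLW]
      exact b5
    have e3 : (N : ℝ) / (2 * L ^ W) = (N / L ^ W) / 2 := by field_simp
    rw [e3]
    linarith
  have hKN : (K : ℝ) ≤ N := hKle.trans (div_le_self hN0.le (one_le_pow₀ hL1))
  have hKNn : K ≤ N := by exact_mod_cast hKN
  have hAc : (A.card : ℝ) ≤ N := by
    have := card_le_card hA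
    rw [Nat.card_Icc, Nat.add_sub_cancel] at this
    exact_mod_cast this
  have hyr : (1 : ℝ) ≤ y := (one_le_pow₀ hL1).trans hy1
  have hy : 1 ≤ y := by exact_mod_cast hyr
  -- long intervals
  obtain ⟨E, hEd⟩ : ∃ E, E = (N : ℝ) / L ^ (W + (U + 2)) := ⟨_, rfl⟩
  rw [← hEd] at b3
  have hE0 : 0 ≤ E := by rw [hEd]; positivity
  have hEK : ∀ K' : ℕ, K ≤ K' → 2 * E / K' ≤ 1 / L ^ (U + 1) := by
    intro K' hK'
    have hK'0 : (0 : ℝ) < K' := by exact_mod_cast (by omega : 0 < K')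
    rw [div_le_div_iff₀ hK'0 (by positivity)]
    have e1 : (N : ℝ) / (2 * L ^ W) ≤ K' := hKge.trans (by exact_mod_cast hK')
    rw [div_le_iff₀ (by positivity)] at e1
    have e2 : 2 * E * L ^ (U + 1) = (2 * N) / (L ^ W * L) := by
      rw [hEd, show W + (U + 2) = W + 1 + (U + 1) by ring, pow_add L (W + 1), pow_succ L W]
      field_simp
    rw [e2, div_le_iff₀ (by positivity), one_mul]
    nlinarith [mul_pos hK'0 hLW]
  have hlong : ∀ K' : ℕ, K ≤ K' → K' ≤ 2 * N → ∀ m ∈ S,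
      |∑ a ∈ A, av K' (a + (s m).toNat) - A.card| ≤ N / L ^ (U + 1) := by
    intro K' hK' hK'2 m hm
    obtain ⟨g1, g2, _⟩ := hS m hm
    have g3 : (s m).toNat ≤ N := by omega
    have e1 : ∑ a ∈ A, av K' (a + (s m).toNat) - A.card = ∑ a ∈ A, (av K' (a + (s m).toNat) - 1) := by
      rw [sum_sub_distrib, sum_const, nsmul_eq_mul, mul_one]
    rw [e1]
    refine (abs_sum_le_sum_abs _ _).trans ?_
    have e2 : ∀ a ∈ A, |av K' (a + (s m).toNat) - 1| ≤ 1 / L ^ (U + 1) := by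
      intro a ha
      have := (mem_Icc.1 (hA ha)).2
      exact (av_pnt N K' _ (by omega) (by omega) E b3).trans (hEK K' hK')
    refine (sum_le_sum e2).trans ?_
    rw [sum_const, nsmul_eq_mul, mul_one_div]
    exact div_le_div_of_nonneg_right hAc (by positivity)
  have hhalf : 2 * (N / L ^ (U + 1)) ≤ N / L ^ U := by
    have e : N / L ^ U = L * (N / L ^ (U + 1)) := by
      rw [pow_succ]
      field_simp
    rw [e]
    apply mul_le_mul_of_nonneg_right _ (by positivity)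
    linarith
  rcases le_or_gt y K with hyK | hyK
  · -- short intervals
    obtain ⟨H, hH⟩ : ∃ H, H = 2 * ((B + 1 + 1) * N) := ⟨_, rfl⟩
    rw [← hH] at b1 b2
    have hNH : 2 * N ≤ H := by
      rw [hH]
      have : N ≤ (B + 1 + 1) * N := Nat.le_mul_of_pos_left _ (by omega)
      omega
    have hlogH : Real.log ((2 * H : ℕ) : ℝ) ≤ 2 * L := by
      have e : ((2 * H : ℕ) : ℝ) = ((4 * (B + 2) : ℕ) : ℝ) * N := by rw [hH]; push_cast; ring
      rw [e, Real.log_mul (by positivity) hN0.ne', ← hL]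
      linarith
    have b6 := b1 (fun n => ((av y n - av K n : ℝ) : ℂ)) (fun α => by exact_mod_cast b2 y hy1 hyK α) (by
      intro n hn
      rw [mem_Icc] at hn
      have e1 := av_le y n (2 * H) hy (by omega)
      have e2 := av_le K n (2 * H) hK1 (by omega)
      rw [abs_of_nonneg (av_nonneg _ _)] at e1 e2
      have e3 := av_nonneg y n
      have e4 := av_nonneg K n
      rw [Complex.norm_real, Real.norm_eq_abs, abs_le]
      constructor <;> linarith) (fun a => if a ∈ A then 1 else 0) (by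
      intro a
      rw [pow_zero]
      split_ifs <;> simp) S hSx (by
      intro m hm
      obtain ⟨g1, g2, g3⟩ := hS m hm
      refine ⟨N, ?_, ?_⟩
      · exact Nat.le_mul_of_pos_left _ (by omega)
      · have g4 := hlong K le_rfl (by omega) m hm
        have e1 : ∑ a ∈ Icc 1 N, (if a ∈ A then (1 : ℂ) else 0) *
            fz (fun n => ((av y n - av K n : ℝ) : ℂ)) H (a + s m) =
            ((∑ a ∈ A, (av y (a + (s m).toNat) - av K (a + (s m).toNat)) : ℝ) : ℂ) := by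
          push_cast
          rw [← sum_subset hA (fun a _ ha => by rw [if_neg ha, zero_mul])]
          apply sum_congr rfl
          intro a ha
          rw [if_pos ha, one_mul]
          have e2 := mem_Icc.1 (hA ha)
          have e3 : (a : ℤ) + s m = ((a + (s m).toNat : ℕ) : ℤ) := by
            push_cast
            rw [Int.toNat_of_nonneg g1.le]
          unfold fz
          rw [e3, Int.toNat_natCast, if_pos ⟨by exact_mod_cast (by omega : 1 ≤ a + (s m).toNat),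
            by exact_mod_cast (by omega : a + (s m).toNat ≤ H)⟩]
        rw [e1, Complex.norm_real, Real.norm_eq_abs]
        have e2 : ∑ a ∈ A, av y (a + (s m).toNat) - A.card =
            ∑ a ∈ A, (av y (a + (s m).toNat) - av K (a + (s m).toNat)) +
            (∑ a ∈ A, av K (a + (s m).toNat) - A.card) := by
          rw [sum_sub_distrib]
          ring
        rw [e2] at g3
        have e3 := abs_add_le (∑ a ∈ A, (av y (a + (s m).toNat) - av K (a + (s m).toNat)))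
          (∑ a ∈ A, av K (a + (s m).toNat) - A.card)
        linarith)
    refine b6.trans ?_
    apply div_le_div_of_nonneg_left (Nat.cast_nonneg _) (by positivity)
    exact pow_le_pow_right₀ hL1 (by omega)
  · have hSe : S = ∅ := by
      rw [eq_empty_iff_forall_notMem]
      intro m hm
      have g4 := hlong y hyK.le hy2 m hm
      have g5 := (hS m hm).2.2
      have : (0 : ℝ) < N / L ^ (U + 1) := by positivity
      linarith
    rw [hSe, card_empty, Nat.cast_zero]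
    positivity

end Pool.Agent.TH646.TT
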