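import Pool.Agent.TH646.TT.Cnt

set_option autoImplicit false

/-! Power savings: sparse sets and families whose energy is within a small power of the minimal one. -/

namespace Pool.Agent.TH646.TT

open Finset Filter
open Pool.Agent.H373R2.T7
open Pool.Agent.H807R2.Dav
open Pool.Agent.W301.SS

set_option maxHeartbeats 4000000 in
/-- the first moment over a family of shifts, with power savings -/
theorem pow_f (p B : ℕ) (σ : ℝ) (hσ : 0 < σ) : ∀ᶠ N : ℕ in atTop, ∀ (x : ℕ) (s : ℕ → ℤ),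
    (∀ m ∈ Icc 1 x, |s m| ≤ B * N) →
    (energy p x s : ℝ) * N ≤ (N : ℝ) ^ (σ / (10 * p + 10)) * (x : ℝ) ^ (2 * p) →
    ∀ f : ℕ → ℂ,
    (∀ α : ℝ, ‖∑ n ∈ Icc 1 (2 * ((B + 1) * N)), f n * ee ((n : ℝ) * α)‖ ≤ (N : ℝ) ^ (1 - σ)) →
    (∀ n ∈ Icc 1 (2 * ((B + 1) * N)), ‖f n‖ ≤ 2 * Real.log N) →
    ∀ A : ℕ, A ≤ B * N →
    ∀ G : ℕ → ℂ, (∀ a, ‖G a‖ ≤ 1) →
    ∑ m ∈ Icc 1 x, ‖∑ a ∈ Icc 1 A, G a * fz f (2 * ((B + 1) * N)) (a + s m)‖ ≤
      (N : ℝ) ^ (1 - 4 * (σ / (10 * p + 10))) * x := by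
  obtain ⟨κ, hκ⟩ : ∃ κ : ℝ, κ = σ / (10 * p + 10) := ⟨_, rfl⟩
  have hp0 : (0 : ℝ) ≤ p := Nat.cast_nonneg p
  have hκ0 : 0 < κ := by rw [hκ]; positivity
  have hσκ : σ = (10 * p + 10) * κ := by rw [hκ]; field_simp
  rw [← hκ]
  filter_upwards [ev_pow (2 * ((4 * p + 5) * (B + 1))) κ hκ0, ev_log 1 (8 * (B + 1)) κ hκ0, ev_L 1,
    eventually_ge_atTop 3] with N g1 g2 hL1 hN3 x s hs hE fΛ hsup0 hf0 A hA G hG
  have hNr : (3 : ℝ) ≤ N := by exact_mod_cast hN3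
  have hN0 : (0 : ℝ) < N := by linarith
  have hN1 : (1 : ℝ) ≤ N := by linarith
  rw [pow_one] at g2
  obtain ⟨L, hLd⟩ : ∃ L, L = Real.log (N : ℝ) := ⟨_, rfl⟩
  rw [← hLd] at g2 hL1 hf0
  have hL0 : 0 < L := by linarith
  rcases Nat.eq_zero_or_pos x with hx | hx
  · rw [hx]; simp
  have hx0 : (0 : ℝ) < x := by exact_mod_cast hx
  obtain ⟨B1, hB1⟩ : ∃ B1, B1 = B + 1 := ⟨_, rfl⟩
  have hB1' : ((B1 : ℕ) : ℝ) = B + 1 := by rw [hB1]; push_cast; ring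
  rw [← hB1] at hsup0 hf0 ⊢
  rw [← hB1'] at g1 g2
  have hB1pos : 1 ≤ B1 := by omega
  obtain ⟨H, hH⟩ : ∃ H, H = 2 * (B1 * N) := ⟨_, rfl⟩
  rw [← hH] at hsup0 hf0 ⊢
  obtain ⟨M, hM⟩ : ∃ M, M = (4 * p + 5) * (B1 * N) := ⟨_, rfl⟩
  have hBN : B * N ≤ B1 * N := Nat.mul_le_mul_right _ (by omega)
  have hB1N : 1 ≤ B1 * N := Nat.mul_pos hB1pos (by omega)
  have hM5 : 5 * (B1 * N) ≤ M := by
    rw [hM]; exact Nat.mul_le_mul_right _ (by omega)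
  have hM1 : 1 ≤ M := by omega
  have hHM : H ≤ M := by omega
  have hHr : (H : ℝ) = 2 * (B1 * N) := by rw [hH]; push_cast; ring
  have hMr : (M : ℝ) = (4 * p + 5) * (B1 * N) := by rw [hM]; push_cast; ring
  have hB1r' : (1 : ℝ) ≤ B1 := by exact_mod_cast hB1pos
  have hcond : ∀ a ∈ Icc 1 A, ∀ m ∈ Icc 1 x, ∀ n ∈ Icc 1 H, |(a : ℤ) + s m - n| < M := by
    intro a ha m hm n hn
    have h4 := abs_le.1 (hs m hm)
    rw [mem_Icc] at ha hn
    have h5 : (a : ℤ) ≤ B * N := by exact_mod_cast ha.2.trans hA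
    have h6 : (n : ℤ) ≤ 2 * (B1 * N) := by
      have : n ≤ 2 * (B1 * N) := by omega
      exact_mod_cast this
    have h7 : (5 : ℤ) * (B1 * N) ≤ M := by exact_mod_cast hM5
    have h8 : (B : ℤ) * N ≤ B1 * N := by exact_mod_cast hBN
    have h9 : (1 : ℤ) ≤ B1 * N := by exact_mod_cast hB1N
    have h10 : (0 : ℤ) ≤ a := by positivity
    have h11 : (0 : ℤ) ≤ n := by positivity
    rw [abs_lt]
    constructor <;> linarith [h4.1, h4.2]
  have hAM : A ≤ M := hA.trans (by omega)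
  have hmomE := moment_energy p x s M (B * N) hM1 (fun m hm => by
    have := hs m hm
    push_cast
    exact this) (by
    have h4 : 2 * p * (B * N) ≤ 2 * p * (B1 * N) := Nat.mul_le_mul_left _ hBN
    have h5 : 2 * p * (B1 * N) < (4 * p + 5) * (B1 * N) := Nat.mul_lt_mul_of_pos_right (by omega) hB1N
    omega)
  obtain ⟨C0, hC0⟩ : ∃ C0 : ℝ, C0 = (4 * p + 5) * B1 * (N : ℝ) ^ κ := ⟨_, rfl⟩
  have hmom : ∑ t ∈ range M, (‖∑ m ∈ Icc 1 x, ee ((t : ℝ) * ((s m : ℝ) / M))‖ / x) ^ (2 * p) ≤ C0 := by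
    have h2 : ∑ t ∈ range M, (‖∑ m ∈ Icc 1 x, ee ((t : ℝ) * ((s m : ℝ) / M))‖ / x) ^ (2 * p) =
        (M * energy p x s) / (x : ℝ) ^ (2 * p) := by
      rw [← hmomE, sum_div]
      exact sum_congr rfl fun t _ => div_pow _ _ _
    rw [h2, div_le_iff₀ (by positivity), hMr]
    calc (4 * (p : ℝ) + 5) * (B1 * N) * energy p x s = (4 * p + 5) * B1 * (energy p x s * N) := by ring
      _ ≤ (4 * p + 5) * B1 * ((N : ℝ) ^ κ * (x : ℝ) ^ (2 * p)) := mul_le_mul_of_nonneg_left hE (by positivity)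
      _ = _ := by rw [hC0]; ring
  have hfs : ∑ n ∈ Icc 1 H, ‖fΛ n‖ ^ 2 ≤ H * (2 * L) ^ 2 := by
    have h4 : ∀ n ∈ Icc 1 H, ‖fΛ n‖ ^ 2 ≤ (2 * L) ^ 2 := by
      intro n hn
      exact pow_le_pow_left₀ (norm_nonneg _) (hf0 n hn) _
    refine (sum_le_sum h4).trans ?_
    rw [sum_const, Nat.card_Icc, nsmul_eq_mul]
    simp
  obtain ⟨η, hηd⟩ : ∃ η : ℝ, η = (N : ℝ) ^ (-(5 * κ)) := ⟨_, rfl⟩
  have hη : 0 < η := by rw [hηd]; positivity
  obtain ⟨S, hS⟩ : ∃ S : ℕ → ℂ, S = fun m => ∑ a ∈ Icc 1 A, G a * fz fΛ H (a + s m) := ⟨_, rfl⟩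
  obtain ⟨c, hc⟩ : ∃ c : ℕ → ℂ, c = fun m => (starRingEnd ℂ) (S m) / ‖S m‖ := ⟨_, rfl⟩
  have hc1 : ∀ m, ‖c m‖ ≤ 1 := by
    intro m
    rw [hc]
    simp only [norm_div, RCLike.norm_conj, Complex.norm_real, norm_norm]
    exact div_self_le_one _
  have key := bil_main A H x M hM1 fΛ G c s ((N : ℝ) ^ (1 - σ)) η p C0
    (H * (2 * L) ^ 2) hcond hAM hHM hx hsup0 hG hc1 hmom hfs hη
  have heq : ∑ a ∈ Icc 1 A, ∑ m ∈ Icc 1 x, G a * c m * fz fΛ H (a + s m) =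
      ((∑ m ∈ Icc 1 x, ‖S m‖ : ℝ) : ℂ) := by
    rw [sum_comm]
    push_cast
    apply sum_congr rfl
    intro m _
    have e1 : ∑ a ∈ Icc 1 A, G a * c m * fz fΛ H (a + s m) = c m * S m := by
      rw [hS, mul_sum]
      apply sum_congr rfl
      intro a _
      ring
    rw [e1, hc]
    simp only
    by_cases h0 : ‖S m‖ = 0
    · rw [norm_eq_zero.1 h0]; simp
    · have h0' : ((‖S m‖ : ℝ) : ℂ) ≠ 0 := by exact_mod_cast h0
      rw [div_mul_eq_mul_div, mul_comm, Complex.mul_conj', pow_two]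
      field_simp
  rw [heq, Complex.norm_real, Real.norm_of_nonneg (sum_nonneg fun _ _ => norm_nonneg _)] at key
  rw [hS] at key
  refine key.trans ?_
  have hAr : (A : ℝ) ≤ B1 * N := by exact_mod_cast hA.trans hBN
  have hA0 : (0 : ℝ) ≤ A := Nat.cast_nonneg _
  have hM0 : (0 : ℝ) < M := by exact_mod_cast hM1
  have t1 : C0 / η ^ (2 * p) * (N : ℝ) ^ (1 - σ) * A * x / M ≤ (N : ℝ) ^ (1 - 4 * κ) * x / 2 := by
    have e1 : C0 / η ^ (2 * p) * (N : ℝ) ^ (1 - σ) = (4 * p + 5) * B1 * (N : ℝ) ^ (1 - 9 * κ) := by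
      have e2 : η ^ (2 * p) = (N : ℝ) ^ (-(10 * p * κ)) := by
        rw [hηd, ← Real.rpow_natCast, ← Real.rpow_mul hN0.le]
        congr 1
        push_cast
        ring
      rw [e2, hC0, div_eq_mul_inv, ← Real.rpow_neg hN0.le]
      calc (4 * (p : ℝ) + 5) * B1 * (N : ℝ) ^ κ * (N : ℝ) ^ (-(-(10 * p * κ))) * (N : ℝ) ^ (1 - σ)
          = (4 * (p : ℝ) + 5) * B1 * ((N : ℝ) ^ κ * (N : ℝ) ^ (-(-(10 * p * κ))) * (N : ℝ) ^ (1 - σ)) := by ring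
        _ = _ := by
            rw [← Real.rpow_add hN0, ← Real.rpow_add hN0]
            congr 2
            rw [hσκ]
            ring
    rw [e1]
    have hAM' : (A : ℝ) ≤ M := by exact_mod_cast hAM
    have h5 : (4 * (p : ℝ) + 5) * B1 * (N : ℝ) ^ (1 - 9 * κ) * A * x / M ≤
        (4 * p + 5) * B1 * (N : ℝ) ^ (1 - 9 * κ) * x := by
      rw [div_le_iff₀ hM0]
      have h6 : 0 ≤ (4 * (p : ℝ) + 5) * B1 * (N : ℝ) ^ (1 - 9 * κ) * x := by positivity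
      calc (4 * (p : ℝ) + 5) * B1 * (N : ℝ) ^ (1 - 9 * κ) * A * x =
            ((4 * p + 5) * B1 * (N : ℝ) ^ (1 - 9 * κ) * x) * A := by ring
        _ ≤ _ := mul_le_mul_of_nonneg_left hAM' h6
    refine h5.trans ?_
    have h6 : (4 * (p : ℝ) + 5) * B1 * (N : ℝ) ^ (1 - 9 * κ) ≤ (N : ℝ) ^ (1 - 4 * κ) / 2 := by
      calc (4 * (p : ℝ) + 5) * B1 * (N : ℝ) ^ (1 - 9 * κ) =
            (2 * ((4 * p + 5) * B1)) * (N : ℝ) ^ (1 - 9 * κ) / 2 := by ring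
        _ ≤ (N : ℝ) ^ κ * (N : ℝ) ^ (1 - 9 * κ) / 2 := by gcongr
        _ = (N : ℝ) ^ (1 - 8 * κ) / 2 := by
            rw [← Real.rpow_add hN0]
            congr 2
            ring
        _ ≤ _ := by
            apply div_le_div_of_nonneg_right _ (by norm_num)
            exact Real.rpow_le_rpow_of_exponent_le hN1 (by linarith)
    calc (4 * (p : ℝ) + 5) * B1 * (N : ℝ) ^ (1 - 9 * κ) * x ≤ ((N : ℝ) ^ (1 - 4 * κ) / 2) * x :=
          mul_le_mul_of_nonneg_right h6 hx0.le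
      _ = _ := by ring
  have t2 : η * x * Real.sqrt (H * (2 * L) ^ 2 * A) ≤ (N : ℝ) ^ (1 - 4 * κ) * x / 2 := by
    have h4 : Real.sqrt (H * (2 * L) ^ 2 * A) ≤ 2 * (B1 * N) * (2 * L) := by
      rw [Real.sqrt_le_left (by positivity), hHr]
      have h5 : 2 * ((B1 : ℝ) * N) * (2 * L) ^ 2 * A ≤ 2 * (B1 * N) * (2 * L) ^ 2 * (B1 * N) := mul_le_mul_of_nonneg_left hAr (by positivity)
      refine h5.trans ?_
      have h7 : 0 ≤ ((B1 : ℝ) * N) * (B1 * N) * (2 * L) ^ 2 := by positivity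
      nlinarith
    calc η * x * Real.sqrt (H * (2 * L) ^ 2 * A) ≤ η * x * (2 * (B1 * N) * (2 * L)) :=
          mul_le_mul_of_nonneg_left h4 (by positivity)
      _ = (8 * B1 * L) * (η * N) * x / 2 := by ring
      _ ≤ (N : ℝ) ^ κ * (η * N) * x / 2 := by gcongr
      _ = (N : ℝ) ^ (1 - 4 * κ) * x / 2 := by
          have e : (N : ℝ) ^ κ * (η * N) = (N : ℝ) ^ (1 - 4 * κ) := by
            rw [hηd]
            nth_rewrite 3 [← Real.rpow_one (N : ℝ)]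
            rw [← Real.rpow_add hN0, ← Real.rpow_add hN0]
            congr 1
            ring
          rw [e]
  linarith

end Pool.Agent.TH646.TT
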