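import Pool.Agent.TH646.TT.Pow
import Pool.Agent.W301.SS.Full

set_option autoImplicit false

/-! Sparse sets: the lower bound for the averages of `log p` over intervals of length at least `N ^ ε`. -/

namespace Pool.Agent.TH646.TT

open Finset Filter
open Pool.Agent.H373R2.T7
open Pool.Agent.H807R2.Dav
open Pool.Agent.W301.SS

/-- the exponential sums of the difference, with a power saving -/
theorem sup_pow (B : ℕ) (ε τ : ℝ) (hε : 0 < ε) (hτ : 0 < τ) (hτε : τ ≤ ε / 4) (hτ5 : τ ≤ 1 / 10) :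
    ∀ᶠ N : ℕ in atTop, 1 ≤ ⌊(N : ℝ) ^ (1 - 4 * τ)⌋₊ ∧ ∀ y : ℕ, (N : ℝ) ^ ε ≤ y →
    y ≤ ⌊(N : ℝ) ^ (1 - 4 * τ)⌋₊ → ∀ α : ℝ, ‖∑ n ∈ Icc 1 (2 * ((B + 1) * N)),
      ((av y n - av ⌊(N : ℝ) ^ (1 - 4 * τ)⌋₊ n : ℝ) : ℂ) * ee ((n : ℝ) * α)‖ ≤ (N : ℝ) ^ (1 - τ / 2) := by
  obtain ⟨C, hC⟩ := vinoP
  have hC' : VC C := hC
  have hC0 : 0 < C := hC.1
  obtain ⟨c, hc⟩ : ∃ c, c = 6 * C + 26 := ⟨_, rfl⟩
  have hc0 : 0 < c := by rw [hc]; positivity
  filter_upwards [ev_L (Real.log ((4 * (B + 1) : ℕ) : ℝ) + 4),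
    ev_log 7 ((2 * (B + 1)) * (c * (3 ^ 7 * 3) + c + 6)) (τ / 2) (by positivity), eventually_ge_atTop 3] with N a1 a2 hN3
  have hNr : (3 : ℝ) ≤ N := by exact_mod_cast hN3
  have hN0 : (0 : ℝ) < N := by linarith
  have hN1 : (1 : ℝ) ≤ N := by linarith
  obtain ⟨L, hL⟩ : ∃ L, L = Real.log (N : ℝ) := ⟨_, rfl⟩
  rw [← hL] at a1 a2
  have hlB : 0 ≤ Real.log ((4 * (B + 1) : ℕ) : ℝ) := Real.log_natCast_nonneg _
  have hL4 : 4 ≤ L := by linarith
  have hL1 : 1 ≤ L := by linarith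
  have hL0 : 0 < L := by linarith
  obtain ⟨K, hK⟩ : ∃ K, K = ⌊(N : ℝ) ^ (1 - 4 * τ)⌋₊ := ⟨_, rfl⟩
  rw [← hK]
  have hKle : (K : ℝ) ≤ (N : ℝ) ^ (1 - 4 * τ) := by rw [hK]; exact Nat.floor_le (by positivity)
  have hK1 : 1 ≤ K := by
    rw [hK]
    apply Nat.le_floor
    rw [Nat.cast_one]
    exact Real.one_le_rpow hN1 (by linarith)
  obtain ⟨X, hX⟩ : ∃ X, X = 2 * ((B + 1) * N) := ⟨_, rfl⟩
  have hNX : N ≤ X := by
    rw [hX]
    have : N ≤ (B + 1) * N := Nat.le_mul_of_pos_left _ (by omega)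
    omega
  have hXr : (X : ℝ) = (2 * (B + 1)) * N := by rw [hX]; push_cast; ring
  have hNXr : (N : ℝ) ≤ X := by exact_mod_cast hNX
  have hX0 : (0 : ℝ) < X := by linarith
  have hX1 : (1 : ℝ) ≤ X := by linarith
  have hKN : (K : ℝ) ≤ N := hKle.trans (by
    calc (N : ℝ) ^ (1 - 4 * τ) ≤ (N : ℝ) ^ (1 : ℝ) := Real.rpow_le_rpow_of_exponent_le hN1 (by linarith)
      _ = N := Real.rpow_one _)
  have hKX : K ≤ X := by exact_mod_cast hKN.trans hNXr
  refine ⟨hK1, fun y hy1 hy2 α => ?_⟩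
  rw [← hX]
  have hyr : (1 : ℝ) ≤ y := (Real.one_le_rpow hN1 hε.le).trans hy1
  have hy : 1 ≤ y := by exact_mod_cast hyr
  have hy0 : (0 : ℝ) < y := by linarith
  have hQ : (0 : ℝ) < (N : ℝ) ^ (1 - 2 * τ) := by positivity
  have key := dif_sum hC' X y K hy hy2 hKX ((N : ℝ) ^ (1 - 2 * τ)) hQ α
  rw [← hc] at key
  refine key.trans ?_
  -- logarithms
  have hlX2 : Real.log ((2 * X : ℕ) : ℝ) = Real.log ((4 * (B + 1) : ℕ) : ℝ) + L := by
    have e : ((2 * X : ℕ) : ℝ) = ((4 * (B + 1) : ℕ) : ℝ) * N := by rw [hX]; push_cast; ring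
    rw [e, Real.log_mul (by positivity) hN0.ne', hL]
  have hlX2' : Real.log ((2 * X : ℕ) : ℝ) + 2 ≤ 3 * L := by rw [hlX2]; linarith
  have hlX : 1 + Real.log (X : ℝ) ≤ 3 * L := by
    have : Real.log (X : ℝ) ≤ Real.log ((2 * X : ℕ) : ℝ) := Real.log_le_log hX0 (by push_cast; linarith)
    linarith
  have hlX0 : 0 ≤ 1 + Real.log (X : ℝ) := by have := Real.log_natCast_nonneg X; linarith
  have hL7 : 1 ≤ L ^ 7 := one_le_pow₀ hL1
  obtain ⟨P, hP⟩ : ∃ P : ℝ, P = X * (N : ℝ) ^ (-τ) := ⟨_, rfl⟩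
  have hP0 : 0 < P := by rw [hP]; positivity
  -- the three terms
  have t1 : X / √(y : ℝ) ≤ P := by
    rw [hP, div_eq_mul_inv]
    apply mul_le_mul_of_nonneg_left _ hX0.le
    rw [Real.rpow_neg hN0.le]
    apply inv_anti₀ (by positivity)
    apply Real.le_sqrt_of_sq_le
    rw [← Real.rpow_natCast, ← Real.rpow_mul hN0.le]
    refine le_trans ?_ hy1
    apply Real.rpow_le_rpow_of_exponent_le hN1
    push_cast
    linarith
  have t2 : (X : ℝ) ^ (4 / 5 : ℝ) ≤ P := by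
    have e : (X : ℝ) ^ (4 / 5 : ℝ) = X * (X : ℝ) ^ (-(1 / 5) : ℝ) := by
      nth_rewrite 2 [← Real.rpow_one (X : ℝ)]
      rw [← Real.rpow_add hX0]
      norm_num
    rw [e, hP]
    apply mul_le_mul_of_nonneg_left _ hX0.le
    calc (X : ℝ) ^ (-(1 / 5) : ℝ) ≤ (N : ℝ) ^ (-(1 / 5) : ℝ) :=
          Real.rpow_le_rpow_of_nonpos hN0 hNXr (by norm_num)
      _ ≤ (N : ℝ) ^ (-τ) := Real.rpow_le_rpow_of_exponent_le hN1 (by linarith)
  have t3 : √(X * (N : ℝ) ^ (1 - 2 * τ)) ≤ P := by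
    apply Real.sqrt_le_iff.2
    refine ⟨hP0.le, ?_⟩
    have e : P ^ 2 = X * (X * (N : ℝ) ^ (-(2 * τ))) := by
      have e2 : ((N : ℝ) ^ (-τ)) ^ 2 = (N : ℝ) ^ (-(2 * τ)) := by
        rw [← Real.rpow_natCast, ← Real.rpow_mul hN0.le]
        congr 1
        push_cast
        ring
      rw [hP, mul_pow, e2]
      ring
    rw [e]
    apply mul_le_mul_of_nonneg_left _ hX0.le
    have e3 : (N : ℝ) ^ (1 - 2 * τ) = N * (N : ℝ) ^ (-(2 * τ)) := by
      nth_rewrite 2 [← Real.rpow_one (N : ℝ)]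
      rw [← Real.rpow_add hN0]
      congr 1
    rw [e3]
    exact mul_le_mul_of_nonneg_right hNXr (by positivity)
  have t4 : (X : ℝ) * K / (N : ℝ) ^ (1 - 2 * τ) ≤ P := by
    rw [hP, mul_div_assoc]
    apply mul_le_mul_of_nonneg_left _ hX0.le
    rw [div_le_iff₀ hQ]
    refine hKle.trans ?_
    rw [← Real.rpow_add hN0]
    apply Real.rpow_le_rpow_of_exponent_le hN1
    linarith
  have t5 : (K : ℝ) * (Real.log ((2 * X : ℕ) : ℝ) + 2) ≤ 3 * (L ^ 7 * P) := by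
    have e1 : (K : ℝ) ≤ P := by
      refine hKle.trans ?_
      rw [hP]
      calc (N : ℝ) ^ (1 - 4 * τ) ≤ (N : ℝ) ^ (1 - τ) := Real.rpow_le_rpow_of_exponent_le hN1 (by linarith)
        _ = N * (N : ℝ) ^ (-τ) := by
            nth_rewrite 2 [← Real.rpow_one (N : ℝ)]
            rw [← Real.rpow_add hN0]
            congr 1
        _ ≤ _ := mul_le_mul_of_nonneg_right hNXr (by positivity)
    have e2 : L ≤ L ^ 7 := by
      calc L = L ^ 1 := (pow_one L).symm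
        _ ≤ L ^ 7 := pow_le_pow_right₀ hL1 (by norm_num)
    calc (K : ℝ) * (Real.log ((2 * X : ℕ) : ℝ) + 2) ≤ P * (3 * L ^ 7) :=
          mul_le_mul e1 (by linarith) (by have := Real.log_natCast_nonneg (2 * X); linarith) hP0.le
      _ = _ := by ring
  have t6 : (1 + Real.log (X : ℝ)) ^ 7 * (X / √(y : ℝ) + (X : ℝ) ^ (4 / 5 : ℝ) + √(X * (N : ℝ) ^ (1 - 2 * τ))) ≤
      3 ^ 7 * 3 * (L ^ 7 * P) := by
    calc (1 + Real.log (X : ℝ)) ^ 7 * (X / √(y : ℝ) + (X : ℝ) ^ (4 / 5 : ℝ) + √(X * (N : ℝ) ^ (1 - 2 * τ)))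
        ≤ (3 * L) ^ 7 * (P + P + P) := by
          apply mul_le_mul (pow_le_pow_left₀ hlX0 hlX 7) (by linarith) (by positivity) (by positivity)
      _ = _ := by ring
  have t7 : P ≤ L ^ 7 * P := le_mul_of_one_le_left hP0.le hL7
  unfold ERR
  calc c * ((1 + Real.log (X : ℝ)) ^ 7 * (X / √(y : ℝ) + (X : ℝ) ^ (4 / 5 : ℝ) + √(X * (N : ℝ) ^ (1 - 2 * τ))) +
        X * K / (N : ℝ) ^ (1 - 2 * τ)) + 2 * (K * (Real.log ((2 * X : ℕ) : ℝ) + 2))
      ≤ c * (3 ^ 7 * 3 * (L ^ 7 * P) + L ^ 7 * P) + 2 * (3 * (L ^ 7 * P)) := by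
        have := mul_le_mul_of_nonneg_left (add_le_add t6 (t4.trans t7)) hc0.le
        linarith
    _ = ((2 * (B + 1)) * (c * (3 ^ 7 * 3) + c + 6)) * L ^ 7 * (N * (N : ℝ) ^ (-τ)) := by
        rw [hP, hXr]; ring
    _ ≤ (N : ℝ) ^ (τ / 2) * (N * (N : ℝ) ^ (-τ)) := mul_le_mul_of_nonneg_right a2 (by positivity)
    _ = (N : ℝ) ^ (1 - τ / 2) := by
        nth_rewrite 2 [← Real.rpow_one (N : ℝ)]
        rw [← Real.rpow_add hN0, ← Real.rpow_add hN0]
        congr 1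
        ring

set_option maxHeartbeats 4000000 in
/-- one length, sparse sets -/
theorem theta_pow : ∃ c : ℝ, 0 < c ∧ ∀ ε : ℝ, 0 < ε → ∀ p B : ℕ, ∃ κ : ℝ, 0 < κ ∧ κ ≤ 1 / 8 ∧
    ∀ᶠ N : ℕ in atTop, ∀ (x : ℕ) (s : ℕ → ℤ), (∀ m ∈ Icc 1 x, |s m| ≤ B * N) →
    (energy p x s : ℝ) * N ≤ (N : ℝ) ^ κ * (x : ℝ) ^ (2 * p) →
    ∀ A : Finset ℕ, A ⊆ Icc 1 N → (N : ℝ) ^ (1 - κ) ≤ A.card →
    ∀ y : ℕ, (N : ℝ) ^ ε ≤ y → y ≤ 2 * N →
    ∀ S : Finset ℕ, S ⊆ Icc 1 x → (∀ m ∈ S, 0 < s m ∧ s m ≤ N ∧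
      ∑ a ∈ A, av y (a + (s m).toNat) < c * A.card) →
    (S.card : ℝ) ≤ x * (N : ℝ) ^ (-(2 * κ)) := by
  obtain ⟨δ, η, hδ, hδ1, hη, X₀, _, hHoh⟩ := Pool.Agent.H295R3.D.hoheisel
  refine ⟨η / 16, by positivity, fun ε hε p B => ?_⟩
  obtain ⟨τ, hτ⟩ : ∃ τ : ℝ, τ = min (ε / 4) (min (1 / 10) (δ / 16)) := ⟨_, rfl⟩
  have k1 : τ ≤ ε / 4 := by rw [hτ]; exact min_le_left _ _
  have k2 : τ ≤ 1 / 10 := by rw [hτ]; exact (min_le_right _ _).trans (min_le_left _ _)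
  have k3 : τ ≤ δ / 16 := by rw [hτ]; exact (min_le_right _ _).trans (min_le_right _ _)
  have k0 : 0 < τ := by rw [hτ]; exact lt_min (by linarith) (lt_min (by norm_num) (by linarith))
  obtain ⟨κ, hκ⟩ : ∃ κ : ℝ, κ = (τ / 2) / (10 * p + 10) := ⟨_, rfl⟩
  have hp0 : (0 : ℝ) ≤ p := Nat.cast_nonneg p
  have hκ0 : 0 < κ := by rw [hκ]; positivity
  have hκ1 : κ ≤ τ / 2 := by
    rw [hκ, div_le_iff₀ (by positivity)]
    nlinarith
  refine ⟨κ, hκ0, by linarith, ?_⟩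
  filter_upwards [pow_f p (B + 1) (τ / 2) (by positivity), sup_pow (B + 1) ε τ hε k0 k1 k2,
    theta_long hδ hδ1 hη hHoh, ev_pow 2 (2 * τ) (by positivity), ev_pow (16 / η) κ hκ0,
    ev_L (Real.log ((4 * (B + 2) : ℕ) : ℝ) + 4), eventually_ge_atTop 3]
    with N b1 b2 b3 b4 b4' b5 hN3 x s hs hE A hA hAN y hy1 hy2 S hSx hS
  classical
  rw [← hκ] at b1
  have hNr : (3 : ℝ) ≤ N := by exact_mod_cast hN3
  have hN0 : (0 : ℝ) < N := by linarith
  have hN1 : (1 : ℝ) ≤ N := by linarith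
  obtain ⟨hK1, b2⟩ := b2
  obtain ⟨K, hK⟩ : ∃ K, K = ⌊(N : ℝ) ^ (1 - 4 * τ)⌋₊ := ⟨_, rfl⟩
  rw [← hK] at hK1 b2
  have hKle : (K : ℝ) ≤ (N : ℝ) ^ (1 - 4 * τ) := by rw [hK]; exact Nat.floor_le (by positivity)
  have hKN : (K : ℝ) ≤ N := hKle.trans (by
    calc (N : ℝ) ^ (1 - 4 * τ) ≤ (N : ℝ) ^ (1 : ℝ) := Real.rpow_le_rpow_of_exponent_le hN1 (by linarith)
      _ = N := Real.rpow_one _)
  have hKNn : K ≤ N := by exact_mod_cast hKN
  have hKge : (N : ℝ) ^ (1 - δ / 2) ≤ K := by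
    have e1 := Nat.lt_floor_add_one ((N : ℝ) ^ (1 - 4 * τ))
    rw [← hK] at e1
    have e2 : 2 * (N : ℝ) ^ (1 - δ / 2) ≤ (N : ℝ) ^ (1 - 4 * τ) := by
      calc 2 * (N : ℝ) ^ (1 - δ / 2) ≤ (N : ℝ) ^ (2 * τ) * (N : ℝ) ^ (1 - δ / 2) :=
            mul_le_mul_of_nonneg_right b4 (by positivity)
        _ = (N : ℝ) ^ (2 * τ + (1 - δ / 2)) := (Real.rpow_add hN0 _ _).symm
        _ ≤ _ := Real.rpow_le_rpow_of_exponent_le hN1 (by linarith)
    have e3 : 1 ≤ (N : ℝ) ^ (1 - δ / 2) := Real.one_le_rpow hN1 (by linarith)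
    linarith
  have hyr : (1 : ℝ) ≤ y := (Real.one_le_rpow hN1 hε.le).trans hy1
  have hy : 1 ≤ y := by exact_mod_cast hyr
  have hAc0 : (0 : ℝ) < A.card := lt_of_lt_of_le (by positivity) hAN
  -- long intervals
  have hlong : ∀ K' : ℕ, K ≤ K' → K' ≤ 2 * N → ∀ m ∈ S,
      (η / 8) * A.card ≤ ∑ a ∈ A, av K' (a + (s m).toNat) := by
    intro K' hK' hK'2 m hm
    obtain ⟨g1, g2, _⟩ := hS m hm
    have g3 : (s m).toNat ≤ N := by omega
    have e2 : ∀ a ∈ A, η / 8 ≤ av K' (a + (s m).toNat) := by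
      intro a ha
      have h1 := (mem_Icc.1 (hA ha)).2
      have h2 := b3 (a + (s m).toNat) K' (by omega) (hKge.trans (by exact_mod_cast hK')) hK'2
      unfold av
      rw [le_div_iff₀ (by exact_mod_cast (by omega : 0 < K'))]
      exact h2
    calc (η / 8) * A.card = ∑ _a ∈ A, η / 8 := by rw [sum_const, nsmul_eq_mul]; ring
      _ ≤ _ := sum_le_sum e2
  rcases le_or_gt y K with hyK | hyK
  · -- short intervals
    obtain ⟨H, hH⟩ : ∃ H, H = 2 * ((B + 1 + 1) * N) := ⟨_, rfl⟩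
    rw [← hH] at b1 b2
    have hNH : 2 * N ≤ H := by
      rw [hH]
      have : N ≤ (B + 1 + 1) * N := Nat.le_mul_of_pos_left _ (by omega)
      omega
    have hlogH : Real.log ((2 * H : ℕ) : ℝ) ≤ 2 * Real.log N := by
      have e : ((2 * H : ℕ) : ℝ) = ((4 * (B + 2) : ℕ) : ℝ) * N := by rw [hH]; push_cast; ring
      rw [e, Real.log_mul (by positivity) hN0.ne']
      linarith
    have hlB : (|(0 : ℤ)|) ≤ 0 := by simp
    have b6 := b1 x s (fun m hm => (hs m hm).trans (by push_cast; nlinarith)) hE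
      (fun n => ((av y n - av K n : ℝ) : ℂ)) (fun α => by exact_mod_cast b2 y hy1 hyK α) (by
      intro n hn
      rw [mem_Icc] at hn
      have e1 := av_le y n (2 * H) hy (by omega)
      have e2 := av_le K n (2 * H) hK1 (by omega)
      rw [abs_of_nonneg (av_nonneg _ _)] at e1 e2
      have e3 := av_nonneg y n
      have e4 := av_nonneg K n
      rw [Complex.norm_real, Real.norm_eq_abs, abs_le]
      constructor <;> linarith) N (Nat.le_mul_of_pos_left _ (by omega)) (fun a => if a ∈ A then 1 else 0) (by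
      intro a
      split_ifs <;> simp)
    have b7 : ∀ m ∈ S, (η / 16) * A.card ≤ ‖∑ a ∈ Icc 1 N, (if a ∈ A then (1 : ℂ) else 0) *
            fz (fun n => ((av y n - av K n : ℝ) : ℂ)) H (a + s m)‖ := by
      intro m hm
      obtain ⟨g1, g2, g3⟩ := hS m hm
      have g4 := hlong K le_rfl (by omega) m hm
      have e1 : ∑ a ∈ Icc 1 N, (if a ∈ A then (1 : ℂ) else 0) *
          fz (fun n => ((av y n - av K n : ℝ) : ℂ)) H (a + s m) =
          ((∑ a ∈ A, (av y (a + (s m).toNat) - av K (a + (s m).toNat)) : ℝ) : ℂ) := by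
        push_cast
        rw [← sum_subset hA (fun a _ ha => by rw [if_neg ha, zero_mul])]
        apply sum_congr rfl
        intro a ha
        rw [if_pos ha, one_mul]
        have e2 := mem_Icc.1 (hA ha)
        have e3 : (a : ℤ) + s m = ((a + (s m).toNat : ℕ) : ℤ) := by
          push_cast
          rw [Int.toNat_of_nonneg g1.le]
        unfold fz
        rw [e3, Int.toNat_natCast, if_pos ⟨by exact_mod_cast (by omega : 1 ≤ a + (s m).toNat),
          by exact_mod_cast (by omega : a + (s m).toNat ≤ H)⟩]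
      rw [e1, Complex.norm_real, Real.norm_eq_abs, sum_sub_distrib]
      have e2 := neg_abs_le (∑ a ∈ A, av y (a + (s m).toNat) - ∑ a ∈ A, av K (a + (s m).toNat))
      have e3 : η / 8 * A.card = η / 16 * A.card + η / 16 * A.card := by ring
      linarith
    have b8 : (S.card : ℝ) * ((η / 16) * A.card) ≤ (N : ℝ) ^ (1 - 4 * κ) * x := by
      calc (S.card : ℝ) * ((η / 16) * A.card) = ∑ _m ∈ S, (η / 16) * A.card := by
            rw [sum_const, nsmul_eq_mul]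
        _ ≤ ∑ m ∈ S, ‖∑ a ∈ Icc 1 N, (if a ∈ A then (1 : ℂ) else 0) *
            fz (fun n => ((av y n - av K n : ℝ) : ℂ)) H (a + s m)‖ := sum_le_sum b7
        _ ≤ _ := sum_le_sum_of_subset_of_nonneg hSx (fun _ _ _ => norm_nonneg _)
        _ ≤ _ := b6
    have b9 : (S.card : ℝ) * (N : ℝ) ^ (1 - 2 * κ) ≤ (x * (N : ℝ) ^ (-(2 * κ))) * (N : ℝ) ^ (1 - 2 * κ) := by
      calc (S.card : ℝ) * (N : ℝ) ^ (1 - 2 * κ) ≤ S.card * ((η / 16) * A.card) := by
            apply mul_le_mul_of_nonneg_left _ (Nat.cast_nonneg _)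
            calc (N : ℝ) ^ (1 - 2 * κ) = (N : ℝ) ^ (-κ) * (N : ℝ) ^ (1 - κ) := by
                  rw [← Real.rpow_add hN0]
                  congr 1
                  ring
              _ ≤ (η / 16) * A.card := by
                  apply mul_le_mul _ hAN (by positivity) (by positivity)
                  rw [Real.rpow_neg hN0.le, inv_le_comm₀ (by positivity) (by positivity)]
                  rw [inv_div]
                  exact b4'
        _ ≤ (N : ℝ) ^ (1 - 4 * κ) * x := b8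
        _ = _ := by
            rw [mul_comm, mul_assoc, ← Real.rpow_add hN0]
            congr 2
            ring
    exact le_of_mul_le_mul_right b9 (by positivity)
  · have hSe : S = ∅ := by
      rw [eq_empty_iff_forall_notMem]
      intro m hm
      have g4 := hlong y hyK.le hy2 m hm
      have g5 := (hS m hm).2.2
      have : η / 16 * A.card < η / 8 * A.card := by
        apply mul_lt_mul_of_pos_right _ hAc0
        linarith
      linarith
    rw [hSe, card_empty, Nat.cast_zero]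
    positivity

end Pool.Agent.TH646.TT
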