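import Pool.Agent.TH646.TT.Pow2
import Pool.Agent.TH823.Fam.Fam2

set_option autoImplicit false

/-! Sparse sets and families with a power saving: all the lengths at once, counts of primes. -/

namespace Pool.Agent.TH646.TT

open Finset Filter
open Pool.Agent.H373R2.T7
open Pool.Agent.W301.SS

/-- many elements from the upper bound for all the large subsets -/
lemma many_of_upper (A : Finset ℕ) (N b y : ℕ) (c1 V : ℝ) (hc1 : 0 < c1) (hc5 : c1 ≤ 5) (hℓ : 0 < Real.log N)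
    (hy : 1 ≤ y) (hA80 : 80 ≤ c1 * A.card) (hV : V ≤ c1 / 80 * A.card)
    (hup : ∀ G : Finset ℕ, G ⊆ A → V ≤ G.card → cs G b y * Real.log N ≤ 5 * (G.card * y))
    (hlow : c1 * (A.card * y) ≤ cs A b y * Real.log N) :
    c1 / 80 * A.card ≤ (GG A N b y (c1 / 4)).card := by
  classical
  have hy0 : (0 : ℝ) < y := by exact_mod_cast hy
  have hA0 : (0 : ℝ) < A.card := by
    by_contra hcon
    have : (A.card : ℝ) = 0 := le_antisymm (not_lt.1 hcon) (Nat.cast_nonneg _)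
    rw [this, mul_zero] at hA80
    linarith
  obtain ⟨G, hG⟩ : ∃ G, G = GG A N b y (c1 / 4) := ⟨_, rfl⟩
  rw [← hG]
  have hGA : G ⊆ A := by rw [hG]; unfold GG; exact filter_subset _ _
  by_contra hcon
  rw [not_le] at hcon
  obtain ⟨n, hn⟩ : ∃ n : ℕ, n = ⌈c1 / 80 * A.card⌉₊ := ⟨_, rfl⟩
  have hn1 : c1 / 80 * A.card ≤ n := by rw [hn]; exact Nat.le_ceil _
  have hn2 : (n : ℝ) ≤ c1 / 40 * A.card := by
    have h1 := (Nat.ceil_lt_add_one (show 0 ≤ c1 / 80 * (A.card : ℝ) by positivity)).le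
    rw [← hn] at h1
    have h2 : (1 : ℝ) ≤ c1 / 80 * A.card := by linarith
    linarith
  have hn3 : n ≤ A.card := by
    have : (n : ℝ) ≤ A.card := hn2.trans (by nlinarith)
    exact_mod_cast this
  have hn4 : G.card ≤ n := by
    have : (G.card : ℝ) ≤ n := hcon.le.trans hn1
    exact_mod_cast this
  obtain ⟨G', h1, h2, h3⟩ := exists_subsuperset_card_eq hGA hn4 hn3
  have hu := hup G' h2 (by rw [h3]; exact hV.trans hn1)
  have hu2 : cs G' b y * Real.log N ≤ c1 / 8 * (A.card * y) := by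
    refine hu.trans ?_
    rw [h3]
    calc 5 * ((n : ℝ) * y) ≤ 5 * ((c1 / 40 * A.card) * y) := by gcongr
      _ = _ := by ring
  have hr : cs (A \ G') b y * Real.log N ≤ c1 / 4 * (A.card * y) := by
    unfold cs
    rw [sum_mul]
    have h4 : ∀ a ∈ A \ G', (pn (a + b) y : ℝ) * Real.log N ≤ c1 / 4 * y := by
      intro a ha
      rw [Finset.mem_sdiff] at ha
      have h5 : a ∉ G := fun h => ha.2 (h1 h)
      rw [hG] at h5
      unfold GG at h5
      rw [mem_filter, not_and, not_le] at h5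
      exact (h5 ha.1).le
    refine (sum_le_sum h4).trans ?_
    rw [sum_const, nsmul_eq_mul]
    have h5 : (((A \ G').card : ℕ) : ℝ) ≤ A.card := by exact_mod_cast card_le_card Finset.sdiff_subset
    calc _ ≤ (A.card : ℝ) * (c1 / 4 * y) := mul_le_mul_of_nonneg_right h5 (by positivity)
      _ = _ := by ring
  have hs : cs A b y = cs (A \ G') b y + cs G' b y := by
    unfold cs
    exact (Finset.sum_sdiff h2).symm
  rw [hs, add_mul] at hlow
  have : 0 < c1 * (A.card * y) := by positivity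
  linarith

set_option maxHeartbeats 4000000 in
theorem pow_full : ∃ c : ℝ, 0 < c ∧ c ≤ 1 ∧ ∀ ε : ℝ, 0 < ε → ε < 1 → ∀ p B : ℕ, ∃ κ : ℝ, 0 < κ ∧
    ∀ᶠ N : ℕ in atTop, ∀ (x : ℕ) (s : ℕ → ℤ), (∀ m ∈ Icc 1 x, |s m| ≤ B * N) →
    (energy p x s : ℝ) * N ≤ (N : ℝ) ^ κ * (x : ℝ) ^ (2 * p) →
    ∀ A : Finset ℕ, A ⊆ Icc 1 N → (N : ℝ) ^ (1 - κ) ≤ A.card →
    ∀ S : Finset ℕ, S ⊆ Icc 1 x → (∀ m ∈ S, 0 < s m ∧ s m ≤ N ∧
      ¬ ∀ y : ℕ, (N : ℝ) ^ ε ≤ y → y ≤ N →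
        c * (A.card * y) ≤ cs A (s m).toNat y * Real.log N ∧
        cs A (s m).toNat y * Real.log N ≤ 5 * (A.card * y) ∧
        c * A.card ≤ (GG A N (s m).toNat y c).card) →
    (S.card : ℝ) ≤ x * (N : ℝ) ^ (-κ) := by
  classical
  obtain ⟨c0, hc0, hmain⟩ := theta_pow
  obtain ⟨cF, -, -, hpF⟩ := powFull
  obtain ⟨c1, hc1⟩ : ∃ c1 : ℝ, c1 = min (c0 / 4) 5 := ⟨_, rfl⟩
  have hc10 : 0 < c1 := by rw [hc1]; exact lt_min (by positivity) (by norm_num)
  have hc11 : c1 ≤ c0 / 4 := by rw [hc1]; exact min_le_left _ _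
  have hc12 : c1 ≤ 5 := by rw [hc1]; exact min_le_right _ _
  refine ⟨c1 / 80, by positivity, by linarith, fun ε hε hε1 p B => ?_⟩
  obtain ⟨κ0, hκ0, hκ01, hev⟩ := hmain (ε / 2) (by linarith) p B
  obtain ⟨κ1, hκ1, -, -, hevF⟩ := hpF ε hε hε1
  obtain ⟨κ, hκ⟩ : ∃ κ : ℝ, κ = min κ0 (κ1 / 2) := ⟨_, rfl⟩
  have k0 : 0 < κ := by rw [hκ]; exact lt_min hκ0 (by linarith)
  have k1 : κ ≤ κ0 := by rw [hκ]; exact min_le_left _ _
  have k2 : κ ≤ κ1 / 2 := by rw [hκ]; exact min_le_right _ _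
  refine ⟨κ, k0, ?_⟩
  filter_upwards [hev, hevF, ev_L (Real.log 4 + 2), ev_log 1 5 κ0 hκ0, ev_pow 2 (ε / 2) (by linarith),
    ev_pow (80 / c1) (κ1 / 2) (by linarith), ev_pow (80 / c1) (1 - κ) (by linarith), eventually_ge_atTop 16]
    with N h1 h2 h3 h4 h5 h6 h7 hN16 x s hs hE A hA hAN S hSx hS
  have hNr : (16 : ℝ) ≤ N := by exact_mod_cast hN16
  have hN0 : (0 : ℝ) < N := by linarith
  have hN1 : (1 : ℝ) ≤ N := by linarith
  have hlog4 : 0 ≤ Real.log 4 := Real.log_nonneg (by norm_num)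
  obtain ⟨ℓ, hℓ⟩ : ∃ ℓ, ℓ = Real.log (N : ℝ) := ⟨_, rfl⟩
  have hℓ2 : 2 ≤ ℓ := by rw [hℓ]; linarith
  have hℓ0 : 0 < ℓ := by linarith
  have hlogpos : 0 < Real.log N := by rw [← hℓ]; exact hℓ0
  rw [pow_one] at h4
  have hE' : (energy p x s : ℝ) * N ≤ (N : ℝ) ^ κ0 * (x : ℝ) ^ (2 * p) := by
    refine hE.trans (mul_le_mul_of_nonneg_right ?_ (by positivity))
    exact Real.rpow_le_rpow_of_exponent_le hN1 k1
  have hA' : (N : ℝ) ^ (1 - κ0) ≤ A.card :=
    (Real.rpow_le_rpow_of_exponent_le hN1 (by linarith)).trans hAN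
  have hone := h1 x s hs hE' A hA hA'
  have hAle : ∀ a ∈ A, a ≤ N := fun a ha => (mem_Icc.1 (hA ha)).2
  have hA80 : 80 ≤ c1 * A.card := by
    have : 80 / c1 ≤ A.card := h7.trans hAN
    rw [div_le_iff₀ hc10] at this
    linarith
  have hV : (N : ℝ) ^ (1 - κ1) ≤ c1 / 80 * A.card := by
    have e1 : (N : ℝ) ^ (κ1 / 2) * (N : ℝ) ^ (1 - κ1) ≤ A.card := by
      rw [← Real.rpow_add hN0]
      refine le_trans ?_ hAN
      exact Real.rpow_le_rpow_of_exponent_le hN1 (by linarith)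
    have e2 : 80 / c1 * (N : ℝ) ^ (1 - κ1) ≤ A.card :=
      (mul_le_mul_of_nonneg_right h6 (by positivity)).trans e1
    rw [div_mul_eq_mul_div, div_le_iff₀ hc10] at e2
    linarith
  obtain ⟨J, hJ⟩ : ∃ J : ℕ, J = ⌊2 * ℓ⌋₊ + 1 := ⟨_, rfl⟩
  obtain ⟨BB, hBB⟩ : ∃ BB : ℕ → Finset ℕ, BB = fun j => S.filter (fun m => (N : ℝ) ^ (ε / 2) ≤ ((2 ^ j : ℕ) : ℝ) ∧
    2 ^ j ≤ 2 * N ∧ ∑ a ∈ A, av (2 ^ j) (a + (s m).toNat) < c0 * A.card) := ⟨_, rfl⟩
  have hBBc : ∀ j, ((BB j).card : ℝ) ≤ x * (N : ℝ) ^ (-(2 * κ0)) := by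
    intro j
    by_cases h : (N : ℝ) ^ (ε / 2) ≤ ((2 ^ j : ℕ) : ℝ) ∧ 2 ^ j ≤ 2 * N
    · apply hone (2 ^ j) h.1 h.2
      · rw [hBB]
        exact (filter_subset _ _).trans hSx
      · intro m hm
        rw [hBB] at hm
        simp only [mem_filter] at hm
        obtain ⟨g1, g2, _⟩ := hS m hm.1
        exact ⟨g1, g2, hm.2.2.2⟩
    · have : BB j = ∅ := by
        rw [hBB]
        simp only
        rw [filter_eq_empty_iff]
        intro m _ hm
        exact h ⟨hm.1, hm.2.1⟩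
      rw [this, card_empty, Nat.cast_zero]
      positivity
  have hsub : S ⊆ (range J).biUnion BB := by
    intro m hm
    obtain ⟨hs1, hs2, hy⟩ := hS m hm
    rw [mem_biUnion]
    by_contra hcon
    push Not at hcon
    apply hy
    intro y hy1 hy2
    obtain ⟨b, hb⟩ : ∃ b, b = (s m).toNat := ⟨_, rfl⟩
    rw [← hb]
    have hb1 : 1 ≤ b := by omega
    have hbN : b ≤ N := by omega
    have hyr : (1 : ℝ) ≤ y := (Real.one_le_rpow hN1 hε.le).trans hy1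
    have hyn : 1 ≤ y := by exact_mod_cast hyr
    have hy0 : (0 : ℝ) < y := by linarith
    have hyN : (y : ℝ) ≤ N := by exact_mod_cast hy2
    obtain ⟨j, hj⟩ : ∃ j, j = Nat.log 2 y := ⟨_, rfl⟩
    have hj1 : 2 ^ j ≤ y := by rw [hj]; exact Nat.pow_log_le_self 2 (by omega)
    have hj2 : y < 2 ^ (j + 1) := by rw [hj]; exact Nat.lt_pow_succ_log_self (by norm_num) y
    have hj2r : (y : ℝ) ≤ 2 * ((2 ^ j : ℕ) : ℝ) := by
      have : y ≤ 2 * 2 ^ j := by rw [pow_succ] at hj2; omega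
      exact_mod_cast this
    have hj1r : ((2 ^ j : ℕ) : ℝ) ≤ y := by exact_mod_cast hj1
    have hjJ : j < J := by
      have e1 : (j : ℝ) * Real.log 2 ≤ ℓ := by
        rw [← Real.log_pow, hℓ]
        apply Real.log_le_log (by positivity)
        have : ((2 : ℝ) ^ j) = ((2 ^ j : ℕ) : ℝ) := by push_cast; rfl
        rw [this]
        exact hj1r.trans hyN
      have e2 := Real.log_two_gt_d9
      have e3 : (j : ℝ) ≤ 2 * ℓ := by
        have : (0 : ℝ) ≤ j := Nat.cast_nonneg _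
        nlinarith
      have e4 : j ≤ ⌊2 * ℓ⌋₊ := Nat.le_floor e3
      omega
    have hjε : (N : ℝ) ^ (ε / 2) ≤ ((2 ^ j : ℕ) : ℝ) := by
      have e1 : 2 * (N : ℝ) ^ (ε / 2) ≤ y := by
        calc 2 * (N : ℝ) ^ (ε / 2) ≤ (N : ℝ) ^ (ε / 2) * (N : ℝ) ^ (ε / 2) :=
              mul_le_mul_of_nonneg_right h5 (by positivity)
          _ = (N : ℝ) ^ ε := by rw [← Real.rpow_add hN0]; congr 1; ring
          _ ≤ y := hy1
      linarith
    have n1 := hcon j (mem_range.2 hjJ)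
    rw [hBB] at n1
    simp only [mem_filter, not_and, not_lt] at n1
    have n2 := n1 hm hjε (by omega)
    rw [← hb] at n2
    have hpos2 : 1 ≤ 2 ^ j := Nat.one_le_two_pow
    have hL4 : Real.log ((4 * N : ℕ) : ℝ) ≤ 2 * ℓ := by
      push_cast
      rw [Real.log_mul (by norm_num) hN0.ne', ← hℓ]
      rw [← hℓ] at h3
      linarith
    have n3 := cs_low A N b (2 ^ j) hAle hbN hpos2 (by omega) (2 * ℓ) hL4
    have n4 := cs_mono A b hj1
    have n5 : c1 * (A.card * y) ≤ cs A b y * Real.log N := by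
      rw [← hℓ]
      have e0 : (0 : ℝ) < ((2 ^ j : ℕ) : ℝ) := by positivity
      have e1 : c0 * A.card * ((2 ^ j : ℕ) : ℝ) ≤ 2 * ℓ * cs A b (2 ^ j) :=
        (mul_le_mul_of_nonneg_right n2 e0.le).trans n3
      calc c1 * (A.card * y) ≤ (c0 / 4) * (A.card * (2 * ((2 ^ j : ℕ) : ℝ))) := by gcongr
        _ = (c0 * A.card * ((2 ^ j : ℕ) : ℝ)) / 2 := by ring
        _ ≤ (2 * ℓ * cs A b (2 ^ j)) / 2 := by linarith
        _ = ℓ * cs A b (2 ^ j) := by ring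
        _ ≤ ℓ * cs A b y := mul_le_mul_of_nonneg_left n4 hℓ0.le
        _ = _ := by ring
    have hup : ∀ G : Finset ℕ, G ⊆ A → (N : ℝ) ^ (1 - κ1) ≤ G.card → cs G b y * Real.log N ≤ 5 * (G.card * y) := by
      intro G hG hGc
      exact (h2 G (fun a ha => hAle a (hG ha)) hGc).1 b (mem_Icc.2 ⟨hb1, hbN⟩) y hy1
    refine ⟨?_, ?_, ?_⟩
    · refine le_trans ?_ n5
      apply mul_le_mul_of_nonneg_right _ (by positivity)
      linarith
    · apply hup A (Subset.refl A)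
      refine le_trans ?_ hAN
      exact Real.rpow_le_rpow_of_exponent_le hN1 (by linarith)
    · have n6 := many_of_upper A N b y c1 ((N : ℝ) ^ (1 - κ1)) hc10 hc12 hlogpos hyn hA80 hV hup n5
      refine n6.trans ?_
      exact_mod_cast card_le_card (GG_mono (by linarith))
  have g1 : (S.card : ℝ) ≤ ∑ j ∈ range J, ((BB j).card : ℝ) := by
    exact_mod_cast (card_le_card hsub).trans card_biUnion_le
  have g2 : (J : ℝ) ≤ (N : ℝ) ^ κ0 := by
    rw [hJ]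
    push_cast
    have e1 := Nat.floor_le (show 0 ≤ 2 * ℓ by positivity)
    rw [← hℓ] at h4
    linarith
  calc (S.card : ℝ) ≤ ∑ j ∈ range J, ((BB j).card : ℝ) := g1
    _ ≤ ∑ _j ∈ range J, (x : ℝ) * (N : ℝ) ^ (-(2 * κ0)) := sum_le_sum fun j _ => hBBc j
    _ = J * (x * (N : ℝ) ^ (-(2 * κ0))) := by rw [sum_const, nsmul_eq_mul, card_range]
    _ ≤ (N : ℝ) ^ κ0 * (x * (N : ℝ) ^ (-(2 * κ0))) := mul_le_mul_of_nonneg_right g2 (by positivity)
    _ = x * (N : ℝ) ^ (-κ0) := by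
        rw [mul_left_comm, ← Real.rpow_add hN0]
        congr 2
        ring
    _ ≤ x * (N : ℝ) ^ (-κ) := by
        apply mul_le_mul_of_nonneg_left _ (Nat.cast_nonneg _)
        exact Real.rpow_le_rpow_of_exponent_le hN1 (by linarith)

open Polynomial in
/-- the hypotheses for polynomial values, with a power saving -/
lemma poly_family_pow (f : ℤ[X]) (hd : 1 ≤ f.natDegree) (B : ℕ) : ∃ p B' : ℕ, B ≤ B' ∧ ∀ κ : ℝ, 0 < κ →
    ∀ᶠ N : ℕ in atTop, ∀ x : ℕ, x ^ f.natDegree ≤ B * N → (N : ℝ) ^ (1 - κ / 2) ≤ (x : ℝ) ^ f.natDegree →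
    ∀ c : ℤ, |c| ≤ B * N →
    (∀ m ∈ Icc 1 x, |c + f.eval (m : ℤ)| ≤ B' * N) ∧
    (energy p x (fun m => c + f.eval (m : ℤ)) : ℝ) * N ≤ (N : ℝ) ^ κ * (x : ℝ) ^ (2 * p) := by
  obtain ⟨p, C1, hC1, h1⟩ := TH823.Fam.energy_poly' f hd
  obtain ⟨A, hA⟩ := TH823.Fam.poly_size f
  refine ⟨p, B + A * B, by omega, fun κ hκ => ?_⟩
  filter_upwards [ev_pow C1 (κ / 2) (by linarith), eventually_ge_atTop 1] with N h2 hN1' x hx1 hx2 c hc
  have hN0 : (0 : ℝ) < N := by exact_mod_cast (by omega : 0 < N)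
  have hx : 1 ≤ x := by
    by_contra hcon
    have : x = 0 := by omega
    subst this
    rw [Nat.cast_zero, zero_pow (by omega)] at hx2
    have : 0 < (N : ℝ) ^ (1 - κ / 2) := by positivity
    linarith
  constructor
  · intro m hm
    refine (abs_add_le _ _).trans ?_
    have h3 := hA x hx m hm
    have h4 : (x : ℤ) ^ f.natDegree ≤ B * N := by exact_mod_cast hx1
    push_cast
    calc |c| + |eval (m : ℤ) f| ≤ B * N + A * (B * N) := by
          apply add_le_add hc (h3.trans _)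
          exact mul_le_mul_of_nonneg_left h4 (by positivity)
      _ = (B + A * B) * N := by ring
  · have h3 := h1 x hx c
    have hx0 : (0 : ℝ) < x := by exact_mod_cast hx
    have hxd : (0 : ℝ) < (x : ℝ) ^ f.natDegree := by positivity
    have e : (N : ℝ) = (N : ℝ) ^ (κ / 2) * (N : ℝ) ^ (1 - κ / 2) := by
      rw [← Real.rpow_add hN0]
      norm_num
    calc (energy p x (fun m => c + f.eval (m : ℤ)) : ℝ) * N =
          (energy p x (fun m => c + f.eval (m : ℤ)) : ℝ) * ((N : ℝ) ^ (κ / 2) * (N : ℝ) ^ (1 - κ / 2)) := by rw [← e]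
      _ ≤ (energy p x (fun m => c + f.eval (m : ℤ)) : ℝ) * ((N : ℝ) ^ (κ / 2) * (x : ℝ) ^ f.natDegree) := by gcongr
      _ = (N : ℝ) ^ (κ / 2) * ((energy p x (fun m => c + f.eval (m : ℤ)) : ℝ) * (x : ℝ) ^ f.natDegree) := by ring
      _ ≤ (N : ℝ) ^ (κ / 2) * (C1 * (x : ℝ) ^ (2 * p)) := mul_le_mul_of_nonneg_left h3 (by positivity)
      _ ≤ (N : ℝ) ^ (κ / 2) * ((N : ℝ) ^ (κ / 2) * (x : ℝ) ^ (2 * p)) := by gcongr
      _ = _ := by
          rw [← mul_assoc, ← Real.rpow_add hN0]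
          congr 2
          ring

end Pool.Agent.TH646.TT
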