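import Pool.Agent.TH646.TT.Pow3

set_option autoImplicit false

/-! Sparse sets and families with a power saving: intervals on both sides. -/

namespace Pool.Agent.TH646.TT

open Finset Filter
open Pool.Agent.H373R2.T7
open Pool.Agent.W301.SS

open Classical in
/-- the elements `a` of `A` such that the interval `(x - x ^ ε, x)`, `x = a + b`, contains a prime -/
noncomputable def leftPrimes (ε : ℝ) (A : Finset ℕ) (b : ℕ) : Finset ℕ :=
  A.filter fun a => ∃ q : ℕ, q.Prime ∧ ((a + b : ℕ) : ℝ) - ((a + b : ℕ) : ℝ) ^ ε < q ∧ q < a + b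

theorem pow_two_sided : ∃ c : ℝ, 0 < c ∧ c ≤ 1 ∧ ∀ ε : ℝ, 0 < ε → ε < 1 → ∀ p B : ℕ, ∃ κ : ℝ, 0 < κ ∧
    ∀ᶠ N : ℕ in atTop, ∀ (x : ℕ) (s : ℕ → ℤ), (∀ m ∈ Icc 1 x, |s m| ≤ B * N) →
    (energy p x s : ℝ) * N ≤ (N : ℝ) ^ κ * (x : ℝ) ^ (2 * p) →
    ∀ A : Finset ℕ, A ⊆ Icc 1 N → (N : ℝ) ^ (1 - κ) ≤ A.card →
    ∀ S : Finset ℕ, S ⊆ Icc 1 x → (∀ m ∈ S, (N : ℝ) ^ (1 / 2 : ℝ) ≤ s m ∧ s m ≤ N ∧
      ¬ ((∀ y : ℕ, (N : ℝ) ^ ε ≤ y → y ≤ N →
        c * (A.card * y) ≤ cs A (s m).toNat y * Real.log N ∧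
        cs A (s m).toNat y * Real.log N ≤ 5 * (A.card * y) ∧
        c * A.card ≤ (GG A N (s m).toNat y c).card) ∧
        c * A.card ≤ (leftPrimes ε A (s m).toNat).card)) →
    (S.card : ℝ) ≤ x * (N : ℝ) ^ (-κ) := by
  classical
  obtain ⟨c, hc0, hc1, hmain⟩ := pow_full
  refine ⟨c, hc0, hc1, fun ε hε hε1 p B => ?_⟩
  obtain ⟨κ1, hκ1, hev1⟩ := hmain ε hε hε1 p B
  obtain ⟨κ2, hκ2, hev2⟩ := hmain (ε / 4) (by linarith) (by linarith) p (B + 1)
  obtain ⟨κ, hκ⟩ : ∃ κ : ℝ, κ = min κ1 κ2 / 2 := ⟨_, rfl⟩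
  have k0 : 0 < κ := by
    rw [hκ]
    have := lt_min hκ1 hκ2
    linarith
  have k1 : 2 * κ ≤ κ1 := by rw [hκ]; linarith [min_le_left κ1 κ2]
  have k2 : 2 * κ ≤ κ2 := by rw [hκ]; linarith [min_le_right κ1 κ2]
  refine ⟨κ, k0, ?_⟩
  filter_upwards [hev1, hev2, ev_pow 2 κ k0, ev_pow 4 (ε / 4) (by linarith), ev_L 1, eventually_ge_atTop 16]
    with N h1 h2 h3 h4 h5 hN16 x s hs hE A hA hAN S hSx hS
  have hNr : (16 : ℝ) ≤ N := by exact_mod_cast hN16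
  have hN0 : (0 : ℝ) < N := by linarith
  have hN1 : (1 : ℝ) ≤ N := by linarith
  obtain ⟨g, hg⟩ : ∃ g : ℕ, g = ⌊(N : ℝ) ^ (ε / 2)⌋₊ := ⟨_, rfl⟩
  have hg1 : (g : ℝ) ≤ (N : ℝ) ^ (ε / 2) := by rw [hg]; exact Nat.floor_le (by positivity)
  have hg2 : (N : ℝ) ^ (ε / 2) < g + 1 := by rw [hg]; exact Nat.lt_floor_add_one _
  have hg3 : 4 * (N : ℝ) ^ (ε / 4) ≤ (N : ℝ) ^ (ε / 2) := by
    calc 4 * (N : ℝ) ^ (ε / 4) ≤ (N : ℝ) ^ (ε / 4) * (N : ℝ) ^ (ε / 4) :=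
          mul_le_mul_of_nonneg_right h4 (by positivity)
      _ = _ := by rw [← Real.rpow_add hN0]; congr 1; ring
  have hg4 : (1 : ℝ) ≤ (N : ℝ) ^ (ε / 4) := Real.one_le_rpow hN1 (by linarith)
  have hg5 : (N : ℝ) ^ (ε / 4) ≤ ((g - 1 : ℕ) : ℝ) ∧ 2 ≤ g := by
    have e1 : (3 : ℝ) ≤ g := by linarith
    have e2 : 3 ≤ g := by exact_mod_cast e1
    refine ⟨?_, by omega⟩
    rw [Nat.cast_sub (by omega)]
    push_cast
    linarith
  have hgN : (g : ℝ) ≤ (N : ℝ) ^ (1 / 2 : ℝ) :=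
    hg1.trans (Real.rpow_le_rpow_of_exponent_le hN1 (by linarith))
  have hhalfN : (N : ℝ) ^ (1 / 2 : ℝ) ≤ N := by
    calc (N : ℝ) ^ (1 / 2 : ℝ) ≤ (N : ℝ) ^ (1 : ℝ) := Real.rpow_le_rpow_of_exponent_le hN1 (by norm_num)
      _ = N := Real.rpow_one _
  have hgN' : g ≤ N := by exact_mod_cast hgN.trans hhalfN
  have hstrict : (g : ℝ) < (N : ℝ) ^ (1 / 2 : ℝ) := by
    refine lt_of_le_of_lt hg1 ?_
    apply Real.rpow_lt_rpow_of_exponent_lt (by linarith)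
    linarith
  have hpow : ∀ κ' : ℝ, 2 * κ ≤ κ' → (N : ℝ) ^ κ ≤ (N : ℝ) ^ κ' := fun κ' h =>
    Real.rpow_le_rpow_of_exponent_le hN1 (by linarith)
  have hpow' : ∀ κ' : ℝ, 2 * κ ≤ κ' → (N : ℝ) ^ (1 - κ') ≤ (N : ℝ) ^ (1 - κ) := fun κ' h =>
    Real.rpow_le_rpow_of_exponent_le hN1 (by linarith)
  -- the first family
  have f1 := h1 x s hs (hE.trans (mul_le_mul_of_nonneg_right (hpow κ1 k1) (by positivity))) A hA
    ((hpow' κ1 k1).trans hAN)
    (S.filter (fun m => ¬ ∀ y : ℕ, (N : ℝ) ^ ε ≤ y → y ≤ N →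
        c * (A.card * y) ≤ cs A (s m).toNat y * Real.log N ∧
        cs A (s m).toNat y * Real.log N ≤ 5 * (A.card * y) ∧
        c * A.card ≤ (GG A N (s m).toNat y c).card)) ((filter_subset _ _).trans hSx) (by
      intro m hm
      rw [mem_filter] at hm
      obtain ⟨g1, g2, _⟩ := hS m hm.1
      refine ⟨?_, g2, hm.2⟩
      have : (0 : ℝ) < s m := lt_of_lt_of_le (by positivity) g1
      exact_mod_cast this)
  -- the second family
  have f2 := h2 x (fun m => -(g : ℤ) + s m) (by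
      intro m hm
      refine (abs_add_le _ _).trans ?_
      rw [abs_neg, Nat.abs_cast]
      have e1 := hs m hm
      have e2 : (g : ℤ) ≤ N := by exact_mod_cast hgN'
      push_cast
      linarith) (by
      rw [TH823.Fam.energy_translate]
      exact hE.trans (mul_le_mul_of_nonneg_right (hpow κ2 k2) (by positivity))) A hA
    ((hpow' κ2 k2).trans hAN)
    (S.filter (fun m => ¬ c * A.card ≤ (leftPrimes ε A (s m).toNat).card)) ((filter_subset _ _).trans hSx) (by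
      intro m hm
      rw [mem_filter] at hm
      obtain ⟨g1, g2, _⟩ := hS m hm.1
      have e1 : (g : ℤ) < s m := by
        have : (g : ℝ) < (s m : ℝ) := lt_of_lt_of_le hstrict g1
        exact_mod_cast this
      refine ⟨by linarith, by linarith [(Nat.cast_nonneg g : (0 : ℤ) ≤ g)], fun hcon => hm.2 ?_⟩
      obtain ⟨-, -, e2⟩ := hcon (g - 1) hg5.1 (by omega)
      refine e2.trans ?_
      apply Nat.cast_le.2
      apply card_le_card
      obtain ⟨b, hb⟩ : ∃ b, b = (s m).toNat := ⟨_, rfl⟩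
      have hbg : g < b := by omega
      have hb2 : (-(g : ℤ) + s m).toNat = b - g := by omega
      rw [hb2, ← hb]
      have hbr : (N : ℝ) ^ (1 / 2 : ℝ) ≤ b := by
        have e3 : ((b : ℕ) : ℤ) = s m := by rw [hb]; exact Int.toNat_of_nonneg (by omega)
        have e4 : ((b : ℕ) : ℝ) = ((s m : ℤ) : ℝ) := by exact_mod_cast congrArg (Int.cast : ℤ → ℝ) e3
        rw [e4]
        exact g1
      intro a ha
      unfold GG at ha
      rw [mem_filter] at ha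
      unfold leftPrimes
      rw [mem_filter]
      refine ⟨ha.1, ?_⟩
      have e3 : 0 < pn (a + (b - g)) (g - 1) := by
        by_contra hcon2
        have e4 : pn (a + (b - g)) (g - 1) = 0 := by omega
        rw [e4, Nat.cast_zero, zero_mul] at ha
        have e5 : (0 : ℝ) < ((g - 1 : ℕ) : ℝ) := by exact_mod_cast (by omega : 0 < g - 1)
        have e6 : 0 < c * ((g - 1 : ℕ) : ℝ) := by positivity
        linarith [ha.2]
      unfold pn at e3
      obtain ⟨q, hq⟩ := card_pos.1 e3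
      rw [mem_filter, mem_Ioc] at hq
      refine ⟨q, hq.2, ?_, by omega⟩
      have e7 : (g : ℝ) ≤ ((a + b : ℕ) : ℝ) ^ ε := by
        refine hg1.trans ?_
        calc (N : ℝ) ^ (ε / 2) = ((N : ℝ) ^ (1 / 2 : ℝ)) ^ ε := by
              rw [← Real.rpow_mul hN0.le]; congr 1; ring
          _ ≤ ((a + b : ℕ) : ℝ) ^ ε := by
              apply Real.rpow_le_rpow (by positivity) _ hε.le
              push_cast
              have : (0 : ℝ) ≤ a := Nat.cast_nonneg a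
              linarith
      have e8 : ((a + b : ℕ) : ℝ) < (q : ℝ) + g := by
        have : a + b < q + g := by omega
        exact_mod_cast this
      linarith)
  have hcover : S ⊆ S.filter (fun m => ¬ ∀ y : ℕ, (N : ℝ) ^ ε ≤ y → y ≤ N →
        c * (A.card * y) ≤ cs A (s m).toNat y * Real.log N ∧
        cs A (s m).toNat y * Real.log N ≤ 5 * (A.card * y) ∧
        c * A.card ≤ (GG A N (s m).toNat y c).card) ∪
      S.filter (fun m => ¬ c * A.card ≤ (leftPrimes ε A (s m).toNat).card) := by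
    intro m hm
    rw [mem_union, mem_filter, mem_filter]
    obtain ⟨-, -, g3⟩ := hS m hm
    by_cases h : c * A.card ≤ (leftPrimes ε A (s m).toNat).card
    · left
      exact ⟨hm, fun h' => g3 ⟨h', h⟩⟩
    · right
      exact ⟨hm, h⟩
  have hcard := (card_le_card hcover).trans (card_union_le _ _)
  have hcard' : (S.card : ℝ) ≤ x * (N : ℝ) ^ (-κ1) + x * (N : ℝ) ^ (-κ2) := by
    refine le_trans (by exact_mod_cast hcard : (S.card : ℝ) ≤
      ((S.filter (fun m => ¬ ∀ y : ℕ, (N : ℝ) ^ ε ≤ y → y ≤ N →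
        c * (A.card * y) ≤ cs A (s m).toNat y * Real.log N ∧
        cs A (s m).toNat y * Real.log N ≤ 5 * (A.card * y) ∧
        c * A.card ≤ (GG A N (s m).toNat y c).card)).card : ℝ) +
      ((S.filter (fun m => ¬ c * A.card ≤ (leftPrimes ε A (s m).toNat).card)).card : ℝ)) (add_le_add f1 f2)
  refine hcard'.trans ?_
  have e1 : ∀ κ' : ℝ, 2 * κ ≤ κ' → (N : ℝ) ^ (-κ') ≤ (N : ℝ) ^ (-(2 * κ)) := fun κ' h =>
    Real.rpow_le_rpow_of_exponent_le hN1 (by linarith)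
  have e2 : 2 * (N : ℝ) ^ (-(2 * κ)) ≤ (N : ℝ) ^ (-κ) := by
    calc 2 * (N : ℝ) ^ (-(2 * κ)) ≤ (N : ℝ) ^ κ * (N : ℝ) ^ (-(2 * κ)) :=
          mul_le_mul_of_nonneg_right h3 (by positivity)
      _ = _ := by rw [← Real.rpow_add hN0]; congr 1; ring
  have hx0 : (0 : ℝ) ≤ x := Nat.cast_nonneg _
  calc (x : ℝ) * (N : ℝ) ^ (-κ1) + x * (N : ℝ) ^ (-κ2) ≤ x * (N : ℝ) ^ (-(2 * κ)) + x * (N : ℝ) ^ (-(2 * κ)) :=
        add_le_add (mul_le_mul_of_nonneg_left (e1 κ1 k1) hx0) (mul_le_mul_of_nonneg_left (e1 κ2 k2) hx0)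
    _ = x * (2 * (N : ℝ) ^ (-(2 * κ))) := by ring
    _ ≤ _ := mul_le_mul_of_nonneg_left e2 hx0

end Pool.Agent.TH646.TT
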