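import Pool.Agent.W301.SS.Asym

set_option autoImplicit false

/-! The exponential sums of the difference between the averages of `log p` over a short and over a long
interval to the right of `n`. -/

namespace Pool.Agent.TH646.TT

open Finset
open Pool.Agent.H807R2.Dav
open Pool.Agent.W301.SS

lemma SP_per (N : ℕ) (β : ℝ) (k : ℤ) : SP N (-(β + k)) = SP N (-β) := by
  unfold SP
  apply sum_congr rfl
  intro n _
  congr 1
  have e : (n : ℝ) * (-(β + k)) = (n : ℝ) * (-β) + ((-(n * k) : ℤ) : ℝ) := by push_cast; ring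
  rw [e, ee_add_int]

lemma FK_per (H : ℕ) (β : ℝ) (k : ℤ) : FK H (β + k) = FK H β := by
  unfold FK
  apply sum_congr rfl
  intro n _
  have e : (n : ℝ) * (β + k) = (n : ℝ) * β + (((n : ℤ) * k : ℤ) : ℝ) := by push_cast; ring
  rw [e, ee_add_int]

lemma SP_cont (N : ℕ) : Continuous fun β : ℝ => SP N (-β) := by
  unfold SP ee
  fun_prop

lemma FK_cont (H : ℕ) : Continuous fun β : ℝ => FK H β := by
  unfold FK ee
  fun_prop

lemma FK_zero (H : ℕ) (hH : 1 ≤ H) : FK H 0 / H = 1 := by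
  have hH0 : (H : ℂ) ≠ 0 := by
    have : H ≠ 0 := by omega
    exact_mod_cast this
  unfold FK
  simp [ee_zero, hH0]

/-- the bound for the product at all real numbers -/
lemma real_point {C : ℝ} (hC : VC C) {N : ℕ} (hN : 1 ≤ N) (H H1 : ℕ) (hH : 1 ≤ H) (hHH : H ≤ H1)
    (Q : ℝ) (hQ : 0 < Q) (β : ℝ) :
    ‖SP N (-β)‖ * ‖FK H β / H - FK H1 β / H1‖ ≤ (6 * C + 26) * ERR N H H1 Q := by
  have hlogN : 0 ≤ Real.log N := Real.log_nonneg (by exact_mod_cast hN)
  have hK : 0 ≤ (6 * C + 26) * ERR N H H1 Q := by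
    have := hC.1
    unfold ERR
    positivity
  have hcl : IsClosed {β : ℝ | ‖SP N (-β)‖ * ‖FK H β / H - FK H1 β / H1‖ ≤ (6 * C + 26) * ERR N H H1 Q} := by
    apply isClosed_le _ continuous_const
    exact (SP_cont N).norm.mul (((FK_cont H).div_const _).sub ((FK_cont H1).div_const _)).norm
  refine Rat.denseRange_cast.induction_on (p := fun β : ℝ =>
    ‖SP N (-β)‖ * ‖FK H β / H - FK H1 β / H1‖ ≤ (6 * C + 26) * ERR N H H1 Q) β hcl ?_
  intro r
  obtain ⟨k, hk⟩ : ∃ k : ℤ, k = round r := ⟨_, rfl⟩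
  obtain ⟨r', hr'⟩ : ∃ r' : ℚ, r' = r - k := ⟨_, rfl⟩
  have hr : (r : ℝ) = (r' : ℝ) + k := by rw [hr']; push_cast; ring
  have habs : |r'| ≤ 1 / 2 := by rw [hr', hk]; exact abs_sub_round r
  rw [hr, SP_per, FK_per, FK_per]
  have hM : 0 < r'.den := r'.den_pos
  have hM0 : (0 : ℚ) < r'.den := by exact_mod_cast hM
  obtain ⟨m, hm⟩ : ∃ m : ℕ, m = r'.num.natAbs := ⟨_, rfl⟩
  have habs2 : |r'| = (m : ℚ) / r'.den := by
    conv_lhs => rw [← Rat.num_div_den r']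
    rw [abs_div, Nat.abs_cast, hm]
    congr 1
    rw [← Int.cast_abs, Int.abs_eq_natAbs]
    rfl
  have h2m : 2 * m ≤ r'.den := by
    rw [habs2, div_le_div_iff₀ hM0 (by norm_num)] at habs
    have : ((2 * m : ℕ) : ℚ) ≤ r'.den := by push_cast; linarith
    exact_mod_cast this
  have hrr : (r' : ℝ) = (m : ℝ) / r'.den ∨ (r' : ℝ) = -((m : ℝ) / r'.den) := by
    have h3 : r' = (m : ℚ) / r'.den ∨ r' = -((m : ℚ) / r'.den) := by
      rw [← habs2]
      rcases abs_cases r' with h | h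
      · exact Or.inl h.1.symm
      · right
        rw [h.1, neg_neg]
    rcases h3 with h3 | h3
    · left
      have := congrArg (Rat.cast : ℚ → ℝ) h3
      push_cast at this
      exact this
    · right
      have := congrArg (Rat.cast : ℚ → ℝ) h3
      push_cast at this
      exact this
  rcases Nat.eq_zero_or_pos m with h0 | h0
  · have : (r' : ℝ) = 0 := by
      rw [h0] at hrr
      simpa using hrr
    rw [this, FK_zero H hH, FK_zero H1 (by omega), sub_self, norm_zero, mul_zero]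
    exact hK
  · exact one_point hC hN h0 h2m H H1 hH hHH Q hQ _ hrr

lemma shift_sum (X h : ℕ) (α : ℝ) : ∑ n ∈ Icc 1 X, ((om (n + h) : ℝ) : ℂ) * ee ((n : ℝ) * α) =
    ee ((h : ℝ) * (-α)) * (SP (X + h) α - SP h α) := by
  have h1 : SP (X + h) α = SP h α + ∑ n ∈ Ioc h (X + h), ((om n : ℝ) : ℂ) * ee ((n : ℝ) * α) := by
    unfold SP
    have e : Icc 1 (X + h) = Icc 1 h ∪ Ioc h (X + h) := by
      ext i; simp only [mem_union, mem_Icc, mem_Ioc]; omega
    rw [e, sum_union]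
    rw [disjoint_left]
    intro i hi hi'
    rw [mem_Icc] at hi
    rw [mem_Ioc] at hi'
    omega
  have h2 : ∑ n ∈ Ioc h (X + h), ((om n : ℝ) : ℂ) * ee ((n : ℝ) * α) =
      ∑ n ∈ Icc 1 X, ((om (n + h) : ℝ) : ℂ) * ee (((n + h : ℕ) : ℝ) * α) := by
    have e : Ioc h (X + h) = (Icc 1 X).map (addRightEmbedding h) := by
      ext i
      simp only [mem_Ioc, Finset.mem_map, mem_Icc, addRightEmbedding_apply]
      constructor
      · intro hi
        exact ⟨i - h, by omega, by omega⟩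
      · rintro ⟨j, hj, rfl⟩
        omega
    rw [e, sum_map]
    rfl
  rw [h1, add_sub_cancel_left, h2, mul_sum]
  apply sum_congr rfl
  intro n _
  have e : ee ((n : ℝ) * α) = ee ((h : ℝ) * (-α)) * ee (((n + h : ℕ) : ℝ) * α) := by
    unfold ee
    rw [← Complex.exp_add]
    congr 1
    push_cast
    ring
  rw [e]
  ring

lemma SP_step (X h : ℕ) (hX : 1 ≤ X) (α : ℝ) : ‖SP (X + h) α - SP h α - SP X α‖ ≤ h * (Real.log ((X + h : ℕ) : ℝ) + 2) := by
  have h1 : SP (X + h) α = SP X α + ∑ n ∈ Ioc X (X + h), ((om n : ℝ) : ℂ) * ee ((n : ℝ) * α) := by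
    unfold SP
    have e : Icc 1 (X + h) = Icc 1 X ∪ Ioc X (X + h) := by
      ext i; simp only [mem_union, mem_Icc, mem_Ioc]; omega
    rw [e, sum_union]
    rw [disjoint_left]
    intro i hi hi'
    rw [mem_Icc] at hi
    rw [mem_Ioc] at hi'
    omega
  have h2 : ‖∑ n ∈ Ioc X (X + h), ((om n : ℝ) : ℂ) * ee ((n : ℝ) * α)‖ ≤ h * Real.log ((X + h : ℕ) : ℝ) := by
    refine (norm_sum_le _ _).trans ?_
    have h3 : ∀ n ∈ Ioc X (X + h), ‖((om n : ℝ) : ℂ) * ee ((n : ℝ) * α)‖ ≤ Real.log ((X + h : ℕ) : ℝ) := by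
      intro n hn
      rw [mem_Ioc] at hn
      rw [norm_mul, norm_ee, mul_one, Complex.norm_real, Real.norm_eq_abs, abs_of_nonneg (om_nonneg n)]
      refine (om_le n).trans (ArithmeticFunction.vonMangoldt_le_log.trans ?_)
      exact Real.log_le_log (by exact_mod_cast (by omega : 0 < n)) (by exact_mod_cast hn.2)
    refine (sum_le_sum h3).trans (le_of_eq ?_)
    rw [sum_const, Nat.card_Ioc, nsmul_eq_mul, Nat.add_sub_cancel_left]
  have h3 := SP_le h α
  have e : SP (X + h) α - SP h α - SP X α = ∑ n ∈ Ioc X (X + h), ((om n : ℝ) : ℂ) * ee ((n : ℝ) * α) - SP h α := by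
    rw [h1]; ring
  rw [e]
  refine (norm_sub_le _ _).trans ?_
  linarith

/-- the average of `log p` over `(n, n + y]` -/
noncomputable def av (y n : ℕ) : ℝ := (∑ h ∈ Ioc 0 y, om (n + h)) / y

lemma av_sum (X y : ℕ) (hX : 1 ≤ X) (hy : 1 ≤ y) (hyX : y ≤ X) (α : ℝ) :
    ‖∑ n ∈ Icc 1 X, ((av y n : ℝ) : ℂ) * ee ((n : ℝ) * α) - SP X α * (FK y (-α) / y)‖ ≤
      y * (Real.log ((2 * X : ℕ) : ℝ) + 2) := by
  have hy0 : (0 : ℝ) < y := by exact_mod_cast hy
  have hy0c : (y : ℂ) ≠ 0 := by exact_mod_cast hy0.ne'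
  have e1 : ∑ n ∈ Icc 1 X, ((av y n : ℝ) : ℂ) * ee ((n : ℝ) * α) =
      (∑ h ∈ Ioc 0 y, ee ((h : ℝ) * (-α)) * (SP (X + h) α - SP h α)) / y := by
    have e2 : ∀ n ∈ Icc 1 X, ((av y n : ℝ) : ℂ) * ee ((n : ℝ) * α) =
        (∑ h ∈ Ioc 0 y, ((om (n + h) : ℝ) : ℂ) * ee ((n : ℝ) * α)) / y := by
      intro n _
      unfold av
      push_cast
      rw [div_mul_eq_mul_div, sum_mul]
    rw [sum_congr rfl e2, ← sum_div, sum_comm]
    congr 1
    apply sum_congr rfl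
    intro h _
    exact shift_sum X h α
  have e3 : SP X α * (FK y (-α) / y) = (∑ h ∈ Ioc 0 y, ee ((h : ℝ) * (-α)) * SP X α) / y := by
    unfold FK
    rw [mul_div_assoc', mul_sum]
    congr 1
    apply sum_congr rfl
    intro h _
    ring
  rw [e1, e3, ← sub_div, ← sum_sub_distrib, norm_div, Complex.norm_natCast, div_le_iff₀ hy0]
  refine (norm_sum_le _ _).trans ?_
  have h4 : ∀ h ∈ Ioc 0 y, ‖ee ((h : ℝ) * (-α)) * (SP (X + h) α - SP h α) - ee ((h : ℝ) * (-α)) * SP X α‖ ≤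
      y * (Real.log ((2 * X : ℕ) : ℝ) + 2) := by
    intro h hh
    rw [mem_Ioc] at hh
    rw [← mul_sub, norm_mul, norm_ee, one_mul]
    refine (SP_step X h hX α).trans ?_
    have h5 : (h : ℝ) ≤ y := by exact_mod_cast hh.2
    have h6 : Real.log ((X + h : ℕ) : ℝ) ≤ Real.log ((2 * X : ℕ) : ℝ) :=
      Real.log_le_log (by exact_mod_cast (by omega : 0 < X + h)) (by exact_mod_cast (by omega : X + h ≤ 2 * X))
    have h7 : 0 ≤ Real.log ((X + h : ℕ) : ℝ) := Real.log_natCast_nonneg _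
    calc (h : ℝ) * (Real.log ((X + h : ℕ) : ℝ) + 2) ≤ y * (Real.log ((X + h : ℕ) : ℝ) + 2) :=
          mul_le_mul_of_nonneg_right h5 (by linarith)
      _ ≤ _ := mul_le_mul_of_nonneg_left (by linarith) hy0.le
  refine (sum_le_sum h4).trans (le_of_eq ?_)
  rw [sum_const, Nat.card_Ioc, nsmul_eq_mul, Nat.sub_zero]
  ring

/-- the bound for the exponential sums of the difference -/
lemma dif_sum {C : ℝ} (hC : VC C) (X y K : ℕ) (hy : 1 ≤ y) (hyK : y ≤ K) (hKX : K ≤ X)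
    (Q : ℝ) (hQ : 0 < Q) (α : ℝ) :
    ‖∑ n ∈ Icc 1 X, ((av y n - av K n : ℝ) : ℂ) * ee ((n : ℝ) * α)‖ ≤
      (6 * C + 26) * ERR X y K Q + 2 * (K * (Real.log ((2 * X : ℕ) : ℝ) + 2)) := by
  have hX : 1 ≤ X := by omega
  have h1 := av_sum X y hX hy (by omega) α
  have h2 := av_sum X K hX (by omega) hKX α
  have h3 := real_point hC hX y K hy hyK Q hQ (-α)
  rw [neg_neg] at h3
  have hlog : 0 ≤ Real.log ((2 * X : ℕ) : ℝ) := Real.log_natCast_nonneg _
  have h1' : (y : ℝ) * (Real.log ((2 * X : ℕ) : ℝ) + 2) ≤ K * (Real.log ((2 * X : ℕ) : ℝ) + 2) :=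
    mul_le_mul_of_nonneg_right (by exact_mod_cast hyK) (by linarith)
  have e : ∑ n ∈ Icc 1 X, ((av y n - av K n : ℝ) : ℂ) * ee ((n : ℝ) * α) =
      (∑ n ∈ Icc 1 X, ((av y n : ℝ) : ℂ) * ee ((n : ℝ) * α) - SP X α * (FK y (-α) / y)) -
      (∑ n ∈ Icc 1 X, ((av K n : ℝ) : ℂ) * ee ((n : ℝ) * α) - SP X α * (FK K (-α) / K)) +
      SP X α * (FK y (-α) / y - FK K (-α) / K) := by
    have e2 : ∑ n ∈ Icc 1 X, ((av y n - av K n : ℝ) : ℂ) * ee ((n : ℝ) * α) =
        ∑ n ∈ Icc 1 X, ((av y n : ℝ) : ℂ) * ee ((n : ℝ) * α) - ∑ n ∈ Icc 1 X, ((av K n : ℝ) : ℂ) * ee ((n : ℝ) * α) := by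
      rw [← sum_sub_distrib]
      apply sum_congr rfl
      intro n _
      push_cast
      ring
    rw [e2]
    ring
  rw [e]
  refine (norm_add_le _ _).trans ?_
  have h4 := norm_sub_le (∑ n ∈ Icc 1 X, ((av y n : ℝ) : ℂ) * ee ((n : ℝ) * α) - SP X α * (FK y (-α) / y))
    (∑ n ∈ Icc 1 X, ((av K n : ℝ) : ℂ) * ee ((n : ℝ) * α) - SP X α * (FK K (-α) / K))
  rw [norm_mul]
  linarith

lemma av_le (y n X : ℕ) (hy : 1 ≤ y) (h : n + y ≤ X) : |av y n| ≤ Real.log (X : ℝ) := by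
  have hy0 : (0 : ℝ) < y := by exact_mod_cast hy
  have h0 : 0 ≤ av y n := div_nonneg (sum_nonneg fun _ _ => om_nonneg _) hy0.le
  rw [abs_of_nonneg h0]
  unfold av
  rw [div_le_iff₀ hy0]
  have h3 : ∀ h ∈ Ioc 0 y, om (n + h) ≤ Real.log (X : ℝ) := by
    intro h hh
    rw [mem_Ioc] at hh
    refine (om_le _).trans (ArithmeticFunction.vonMangoldt_le_log.trans ?_)
    exact Real.log_le_log (by exact_mod_cast (by omega : 0 < n + h)) (by exact_mod_cast (by omega : n + h ≤ X))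
  refine (sum_le_sum h3).trans (le_of_eq ?_)
  rw [sum_const, Nat.card_Ioc, nsmul_eq_mul, Nat.sub_zero]
  ring

end Pool.Agent.TH646.TT
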